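import Pool.Agent.K4H13.CV.Bd

/-!
# Boundary values of the primitives: conjugation, the Fricke involution, bounds
-/

set_option autoImplicit false

open Complex Filter Topology Set UpperHalfPlane MatrixGroups CongruenceSubgroup

namespace Pool.Agent.J4.H50.CV

open Pool.Agent.TH940 (prim prim_deriv Fr prim_fricke Pers prim_near prim_line exp_norm)
open Pool.Agent.Y18.BSD
open Pool.Agent.K4H13.CV

variable {N : ℕ} [NeZero N]

/-- the primitive and complex conjugation -/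
lemma prim_conj {f : Cf2 N} (hre : ∀ n, ((qExpansion 1 f).coeff n).im = 0) (z : ℂ) (hz : 0 < z.im) :
    prim f (-(starRingEnd ℂ z)) = starRingEnd ℂ (prim f z) := by
  have hz' : 0 < (-(starRingEnd ℂ z)).im := by
    rw [Complex.neg_im, Complex.conj_im, neg_neg]
    exact hz
  have h1 := prim_hasSum f z hz
  have h2 := Complex.hasSum_conj'.2 h1
  have h3 := prim_hasSum f _ hz'
  refine h3.unique (hs_congr h2 fun n => ?_)
  have e1 : starRingEnd ℂ (co f n) = co f n := by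
    rw [Complex.conj_eq_iff_im]
    exact hre n
  rw [map_mul, map_div₀, e1, Complex.conj_natCast, ← Complex.exp_conj]
  congr 2
  simp only [map_mul, Complex.conj_ofReal, Complex.conj_I, Complex.conj_natCast, map_ofNat]
  ring

/-- the boundary values and complex conjugation -/
lemma bv_neg {f : Cf2 N} {ε : ℂ} (hf : Fr f ε) (hre : ∀ n, ((qExpansion 1 f).coeff n).im = 0)
    (r : ℚ) (hr : r.den.Coprime N) : bv f (-r) = starRingEnd ℂ (bv f r) := by
  have hr' : (-r).den.Coprime N := by rw [Rat.neg_den]; exact hr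
  have h1 := bv_tendsto f hf r hr
  have h2 := bv_tendsto f hf (-r) hr'
  have h3 : Tendsto (fun y : ℝ => starRingEnd ℂ (prim f ((r : ℂ) + (y : ℂ) * Complex.I))) (𝓝[>] 0)
      (𝓝 (starRingEnd ℂ (bv f r))) := (Complex.continuous_conj.tendsto _).comp h1
  refine tendsto_nhds_unique h2 (h3.congr' ?_)
  filter_upwards [self_mem_nhdsWithin] with y (hy : 0 < y)
  have hz : 0 < ((r : ℂ) + (y : ℂ) * Complex.I).im := by
    have : ((r : ℂ)).im = 0 := by exact_mod_cast Complex.ofReal_im (r : ℝ)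
    rw [Complex.add_im, this, Complex.im_ofReal_mul, Complex.I_im, mul_one, zero_add]
    exact hy
  rw [← prim_conj hre _ hz]
  congr 1
  rw [map_add, map_mul, Complex.conj_I, Complex.conj_ofReal]
  have : starRingEnd ℂ (r : ℂ) = (r : ℂ) := by
    rw [Complex.conj_eq_iff_im]
    exact_mod_cast Complex.ofReal_im (r : ℝ)
  rw [this]
  push_cast
  ring

/-- the Fricke involution on the rational numbers -/
lemma bv_star (r : ℚ) (hr : r.den.Coprime N) : ∃ r' : ℚ, r'.den.Coprime N ∧ r'.den ≤ r.den ∧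
    ∀ (f : Cf2 N) (ε : ℂ), Fr f ε → bv f r = ε * bv f r' ∧
      ((∀ n : ℕ, ‖(qExpansion 1 f).coeff n‖ ≤ (n : ℝ) ^ 2) → ‖ε‖ = 1 →
        ‖bv f r‖ ≤ 8 * (N : ℝ) ^ 2 * (r.den : ℝ) ^ 2) := by
  set q := r.den with hq
  have : NeZero q := ⟨r.den_nz⟩
  have hq0 : (0 : ℝ) < q := Nat.cast_pos.2 (Nat.pos_of_ne_zero (NeZero.ne q))
  have hq1 : (1 : ℝ) ≤ q := by exact_mod_cast Nat.pos_of_ne_zero (NeZero.ne q)
  have hqc : (q : ℂ) ≠ 0 := Nat.cast_ne_zero.2 (NeZero.ne q)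
  have hN0 : (0 : ℝ) < N := Nat.cast_pos.2 (Nat.pos_of_ne_zero (NeZero.ne N))
  have hN1 : (1 : ℝ) ≤ N := by exact_mod_cast Nat.pos_of_ne_zero (NeZero.ne N)
  obtain ⟨v, d, hvd⟩ : ∃ v d : ℤ, q * d - N * r.num * v = 1 := by
    have h1 : IsCoprime (q : ℤ) (N : ℤ) := Nat.isCoprime_iff_coprime.2 hr
    have h2 : IsCoprime (q : ℤ) r.num := by
      have := r.reduced
      rw [Int.isCoprime_iff_gcd_eq_one, Int.gcd_comm]
      exact this
    obtain ⟨a, b, hab⟩ := h1.mul_right h2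
    exact ⟨-b, a, by linarith⟩
  obtain ⟨γ, h⟩ := near (N := N) q r.num v d hvd
  have hden' : ((v : ℚ) / (q : ℚ)).den ∣ q := by
    have h1 : ((v : ℚ) / (q : ℚ)) = ((v : ℚ) / ((q : ℤ) : ℚ)) := by push_cast; rfl
    have h2 := Rat.den_dvd v (q : ℤ)
    rw [Rat.divInt_eq_div, ← h1] at h2
    exact_mod_cast h2
  have hden : ((v : ℚ) / (q : ℚ)).den.Coprime N := Nat.Coprime.coprime_dvd_left hden' hr
  have e2 : ((r.num : ℂ) / (q : ℂ)) = (r : ℂ) := by
    rw [hq]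
    exact_mod_cast congrArg (fun x : ℚ => (x : ℂ)) (Rat.num_div_den r)
  refine ⟨(v : ℚ) / (q : ℚ), hden, Nat.le_of_dvd (Nat.pos_of_ne_zero (NeZero.ne q)) hden',
    fun f ε hfr => ?_⟩
  obtain ⟨c0, hc0⟩ := prim_fricke f ε hfr
  -- the value at `r`
  have hT : Tendsto (fun y : ℝ => (N * (q : ℝ) ^ 2)⁻¹ * y⁻¹) (𝓝[>] 0) atTop :=
    (tendsto_inv_nhdsGT_zero).const_mul_atTop (by positivity)
  have ha : bv f r = c0 + per f γ := by
    have h1 := (prim_line f ((v : ℝ) / q)).comp hT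
    have h2 : Tendsto (fun y : ℝ => c0 + per f γ - ε * prim f ((((v : ℝ) / q : ℝ) : ℂ) +
        (((N * (q : ℝ) ^ 2)⁻¹ * y⁻¹ : ℝ) : ℂ) * Complex.I)) (𝓝[>] 0) (𝓝 (c0 + per f γ - ε * 0)) :=
      (h1.const_mul _).const_sub _
    rw [mul_zero, sub_zero] at h2
    refine tendsto_nhds_unique (bv_tendsto f hfr r hr) (h2.congr' ?_)
    filter_upwards [self_mem_nhdsWithin] with y (hy : 0 < y)
    have h3 := h f ε c0 hc0 ((N * (q : ℝ) ^ 2)⁻¹ * y⁻¹) (by positivity)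
    have e1 : (1 / (N * (q : ℝ) ^ 2 * ((N * (q : ℝ) ^ 2)⁻¹ * y⁻¹))) = y := by
      field_simp
    rw [e1, e2] at h3
    rw [h3]
    push_cast
    rfl
  have hb : c0 + per f γ - ε * bv f ((v : ℚ) / (q : ℚ)) = 0 := by
    have h1 := (prim_line f ((r.num : ℝ) / q)).comp hT
    have h2 : Tendsto (fun y : ℝ => c0 + per f γ - ε * prim f ((((v : ℚ) / (q : ℚ) : ℚ) : ℂ) +
        (y : ℂ) * Complex.I)) (𝓝[>] 0) (𝓝 (c0 + per f γ - ε * bv f ((v : ℚ) / (q : ℚ)))) :=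
      ((bv_tendsto f hfr _ hden).const_mul _).const_sub _
    refine tendsto_nhds_unique h2 (h1.congr' ?_)
    filter_upwards [self_mem_nhdsWithin] with y (hy : 0 < y)
    have h3 := h f ε c0 hc0 y hy
    have e1 : (1 / (N * (q : ℝ) ^ 2 * y)) = (N * (q : ℝ) ^ 2)⁻¹ * y⁻¹ := by
      field_simp
    rw [e1] at h3
    simp only [Function.comp_apply]
    have e3 : (((v : ℚ) / (q : ℚ) : ℚ) : ℂ) = (v : ℂ) / q := by push_cast; rfl
    rw [e3, ← h3]
    push_cast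
    rfl
  refine ⟨by rw [ha]; exact sub_eq_zero.1 hb, fun hc hε => ?_⟩
  have h3 := h f ε c0 hc0 (1 / (N * q)) (by positivity)
  have e1 : (1 / (N * (q : ℝ) ^ 2 * (1 / (N * q)))) = 1 / q := by
    field_simp
  rw [e1, ← ha] at h3
  have h4 : bv f r = prim f ((r.num : ℂ) / q + ((1 / (q : ℝ) : ℝ) : ℂ) * Complex.I) +
      ε * prim f ((v : ℂ) / q + ((1 / (N * q) : ℝ) : ℂ) * Complex.I) := by
    rw [h3]; ring
  have hre : ∀ u : ℤ, ((u : ℂ) / (q : ℂ)).im = 0 := by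
    intro u
    rw [show ((u : ℂ) / q) = (((u : ℝ) / (q : ℝ) : ℝ) : ℂ) by push_cast; rfl]
    exact Complex.ofReal_im _
  have im1 : ((r.num : ℂ) / q + ((1 / (q : ℝ) : ℝ) : ℂ) * Complex.I).im = 1 / q := by
    rw [Complex.add_im, hre, Complex.im_ofReal_mul, Complex.I_im, mul_one, zero_add]
  have im2 : ((v : ℂ) / q + ((1 / (N * q) : ℝ) : ℂ) * Complex.I).im = 1 / (N * q) := by
    rw [Complex.add_im, hre, Complex.im_ofReal_mul, Complex.I_im, mul_one, zero_add]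
  have b1 := prim_bd f hc _ (by rw [im1]; positivity :
    0 < ((r.num : ℂ) / q + ((1 / (q : ℝ) : ℝ) : ℂ) * Complex.I).im)
  have b2 := prim_bd f hc _ (by rw [im2]; positivity :
    0 < ((v : ℂ) / q + ((1 / (N * q) : ℝ) : ℂ) * Complex.I).im)
  rw [im1, one_div_one_div] at b1
  rw [im2, one_div_one_div] at b2
  rw [h4]
  refine (norm_add_le _ _).trans ?_
  rw [norm_mul, hε, one_mul]
  have hNq : (1 : ℝ) ≤ N * q := by nlinarith
  have k1 : (1 + (q : ℝ)) ^ 2 ≤ 4 * ((N : ℝ) ^ 2 * (q : ℝ) ^ 2) := by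
    have : 1 + (q : ℝ) ≤ 2 * (N * q) := by nlinarith
    calc (1 + (q : ℝ)) ^ 2 ≤ (2 * (N * q)) ^ 2 := by gcongr
      _ = _ := by ring
  have k2 : (1 + (N : ℝ) * q) ^ 2 ≤ 4 * ((N : ℝ) ^ 2 * (q : ℝ) ^ 2) := by
    have : 1 + (N : ℝ) * q ≤ 2 * (N * q) := by linarith
    calc (1 + (N : ℝ) * q) ^ 2 ≤ (2 * (N * q)) ^ 2 := by gcongr
      _ = _ := by ring
  calc _ ≤ (1 + (q : ℝ)) ^ 2 + (1 + (N : ℝ) * q) ^ 2 := add_le_add b1 b2
    _ ≤ _ := by linarith

end Pool.Agent.J4.H50.CV
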