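import Pool.Agent.J4.H50.CV.A1

/-!
# Integral linear forms in the boundary values
-/

set_option autoImplicit false

open Complex Filter Topology Set UpperHalfPlane MatrixGroups CongruenceSubgroup

namespace Pool.Agent.J4.H50.CV

open Pool.Agent.TH940 (prim prim_deriv Fr prim_fricke Pers prim_near prim_line exp_norm)
open Pool.Agent.Y18.BSD
open Pool.Agent.K4H13.CV

variable {N : ℕ} [NeZero N]

/-- the vectors all of whose Hecke translates, multiplied by `a(2) - 3`, are periods -/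
def Good (B : Finset (Cf2 N)) (V : B → ℂ) : Prop :=
  ∀ n : ℕ, n.Coprime N → (fun f : B => co f.1 n * ((co f.1 2 - 3) * V f)) ∈ LL B

/-- the integral linear forms in the boundary values -/
noncomputable def FF (B : Finset (Cf2 N)) : AddSubgroup (B → ℂ) :=
  AddSubgroup.closure {V | ∃ r : ℚ, r.den.Coprime N ∧ V = fun f : B => bv f.1 r}

lemma FF_bv (B : Finset (Cf2 N)) (r : ℚ) (hr : r.den.Coprime N) :
    (fun f : B => bv f.1 r) ∈ FF B := AddSubgroup.subset_closure ⟨r, hr, rfl⟩

lemma FF_sum (B : Finset (Cf2 N)) {J : Type*} (s : Finset J) (r : J → ℚ) (m : J → ℤ)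
    (hr : ∀ j ∈ s, (r j).den.Coprime N) :
    (fun f : B => ∑ j ∈ s, (m j : ℂ) * bv f.1 (r j)) ∈ FF B := by
  have h1 : ∑ j ∈ s, m j • (fun f : B => bv f.1 (r j)) ∈ FF B :=
    (FF B).sum_mem fun j hj => (FF B).zsmul_mem (FF_bv B (r j) (hr j hj)) (m j)
  refine (congrArg (· ∈ FF B) ?_).mp h1
  funext f
  rw [Finset.sum_apply]
  refine Finset.sum_congr rfl fun j _ => ?_
  rw [Pi.smul_apply, zsmul_eq_mul]

variable {B : Finset (Cf2 N)} (hB : ∀ f ∈ B, ∃ ε : ℝ, W388.IsNewf N 2 f ε)

include hB in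
lemma good_bv (h2N : ¬ 2 ∣ N) (r : ℚ) (hr : r.den.Coprime N) :
    Good B (fun f => bv f.1 r) := by
  intro n hn
  have h1 : PPm B (fun f => co f.1 2 - 3) := by
    have h2 := (PPm.prime hB (PP_one hB) Nat.prime_two h2N).sub ((PP_one hB).nsmul 3)
    refine (congrArg (PPm B) ?_).mp h2
    funext f
    simp
  have h2 := PPm.all hB n hn _ h1 r 0 hr (by simp)
  have h3 := winding hB h2N n hn
  refine (congrArg (· ∈ LL B) ?_).mp ((LL B).add_mem h2 h3)
  funext f
  simp only [Pi.add_apply]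
  ring

include hB in
lemma FF_good (h2N : ¬ 2 ∣ N) {V : B → ℂ} (hV : V ∈ FF B) : Good B V := by
  induction hV using AddSubgroup.closure_induction with
  | mem x hx =>
    obtain ⟨r, hr, rfl⟩ := hx
    exact good_bv hB h2N r hr
  | zero =>
    intro n hn
    refine (congrArg (· ∈ LL B) ?_).mp (LL B).zero_mem
    funext f
    simp
  | add x y hx hy ihx ihy =>
    intro n hn
    refine (congrArg (· ∈ LL B) ?_).mp ((LL B).add_mem (ihx n hn) (ihy n hn))
    funext f
    simp only [Pi.add_apply]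
    ring
  | neg x hx ih =>
    intro n hn
    refine (congrArg (· ∈ LL B) ?_).mp ((LL B).neg_mem (ih n hn))
    funext f
    simp only [Pi.neg_apply]
    ring

lemma FF_conj (hB : ∀ f ∈ B, ∃ ε : ℝ, W388.IsNewf N 2 f ε) {V : B → ℂ} (hV : V ∈ FF B) :
    (fun f => starRingEnd ℂ (V f)) ∈ FF B := by
  induction hV using AddSubgroup.closure_induction with
  | mem x hx =>
    obtain ⟨r, hr, rfl⟩ := hx
    refine (congrArg (· ∈ FF B) ?_).mp (FF_bv B (-r) (by rw [Rat.neg_den]; exact hr))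
    funext f
    obtain ⟨ε, hε⟩ := hB f.1 f.2
    exact bv_neg (newf_fr hε) hε.real r hr
  | zero =>
    refine (congrArg (· ∈ FF B) ?_).mp (FF B).zero_mem
    funext f
    simp
  | add x y hx hy ihx ihy =>
    refine (congrArg (· ∈ FF B) ?_).mp ((FF B).add_mem ihx ihy)
    funext f
    simp only [Pi.add_apply, map_add]
  | neg x hx ih =>
    refine (congrArg (· ∈ FF B) ?_).mp ((FF B).neg_mem ih)
    funext f
    simp only [Pi.neg_apply, map_neg]

lemma FF_star {ε : B → ℝ} (hε : ∀ f : B, W388.IsNewf N 2 f.1 (ε f)) {V : B → ℂ} (hV : V ∈ FF B) :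
    (fun f => (ε f : ℂ) * V f) ∈ FF B := by
  induction hV using AddSubgroup.closure_induction with
  | mem x hx =>
    obtain ⟨r, hr, rfl⟩ := hx
    obtain ⟨r', hr', -, h⟩ := bv_star (N := N) r hr
    refine (congrArg (· ∈ FF B) ?_).mp (FF_bv B r' hr')
    funext f
    simp only
    rw [(h f.1 (ε f) (newf_fr (hε f))).1, ← mul_assoc]
    rcases (hε f).sign with h1 | h1 <;> rw [h1] <;> norm_num
  | zero =>
    refine (congrArg (· ∈ FF B) ?_).mp (FF B).zero_mem
    funext f
    simp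
  | add x y hx hy ihx ihy =>
    refine (congrArg (· ∈ FF B) ?_).mp ((FF B).add_mem ihx ihy)
    funext f
    simp only [Pi.add_apply]
    ring
  | neg x hx ih =>
    refine (congrArg (· ∈ FF B) ?_).mp ((FF B).neg_mem ih)
    funext f
    simp only [Pi.neg_apply]
    ring

/-- the bound for the values of a linear form -/
lemma sum_bd {J : Type*} (s : Finset J) (r : J → ℚ) (m : J → ℤ)
    (hr : ∀ j ∈ s, (r j).den.Coprime N) (Q : ℕ) (hQ : ∀ j ∈ s, (r j).den ≤ Q) {f : Cf2 N} {ε : ℝ}
    (hf : W388.IsNewf N 2 f ε) (hc : ∀ n : ℕ, ‖(qExpansion 1 f).coeff n‖ ≤ (n : ℝ) ^ 2) :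
    ‖∑ j ∈ s, (m j : ℂ) * bv f (r j)‖ ≤ 8 * (N : ℝ) ^ 2 * (Q : ℝ) ^ 2 * ∑ j ∈ s, |(m j : ℝ)| := by
  rw [Finset.mul_sum]
  refine (norm_sum_le _ _).trans (Finset.sum_le_sum fun j hj => ?_)
  obtain ⟨r', -, -, h⟩ := bv_star (N := N) (r j) (hr j hj)
  have h1 := (h f ε (newf_fr hf)).2 hc (by
    rcases hf.sign with h1 | h1 <;> rw [h1] <;> norm_num)
  rw [norm_mul, Complex.norm_intCast, mul_comm]
  refine mul_le_mul_of_nonneg_right (h1.trans ?_) (abs_nonneg _)
  have : ((r j).den : ℝ) ≤ Q := by exact_mod_cast hQ j hj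
  gcongr

/-- the real parts and the imaginary parts -/
noncomputable def pt (b : Bool) (z : ℂ) : ℝ := if b then z.re else z.im

/-- `z ± z̄` is the real part or `i` times the imaginary part, twice -/
lemma pt_eq (b : Bool) (z : ℂ) : (if b then (1 : ℂ) else Complex.I) * ((2 * pt b z : ℝ) : ℂ) =
    z + (if b then (1 : ℂ) else -1) * starRingEnd ℂ z := by
  unfold pt
  cases b
  · simp only [Bool.false_eq_true, if_false]
    apply Complex.ext
    · simp
    · simp
      ring
  · simp only [if_true]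
    apply Complex.ext
    · simp
      ring
    · simp

lemma pt_sum (b : Bool) {J : Type*} (s : Finset J) (x : J → ℂ) :
    pt b (∑ j ∈ s, x j) = ∑ j ∈ s, pt b (x j) := by
  unfold pt
  cases b
  · simp only [Bool.false_eq_true, if_false, Complex.im_sum]
  · simp only [if_true, Complex.re_sum]

lemma pt_le (b : Bool) (z : ℂ) : |pt b z| ≤ ‖z‖ := by
  unfold pt
  cases b
  · simp only [Bool.false_eq_true, if_false]
    exact Complex.abs_im_le_norm z
  · simp only [if_true]
    exact Complex.abs_re_le_norm z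

end Pool.Agent.J4.H50.CV
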