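import Pool.Agent.K4H13.CV.LA2

set_option autoImplicit false

namespace Pool.Agent.J4.H50.CV

open Pool.Agent.K4H13.CV

/-- multiplication by `i` does not change the absolute value of the determinant -/
theorem det_rot {β : Type*} [Fintype β] [DecidableEq β] (v : β ⊕ β → β → ℂ) :
    |(RM (fun i f => Complex.I * v i f)).det| = |(RM v).det| := by
  have h1 : RM (fun i f => Complex.I * v i f) =
      (RM v).submatrix id (Equiv.sumComm β β) *
        Matrix.diagonal (Sum.elim (fun _ => (-1 : ℝ)) (fun _ => 1)) := by
    ext i j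
    rw [Matrix.mul_diagonal]
    rcases j with f | f
    · simp [RM, Complex.mul_re]
    · simp [RM, Complex.mul_im]
  rw [h1, Matrix.det_mul, Matrix.det_diagonal, Matrix.det_permute', Fintype.prod_sum_type]
  simp only [Sum.elim_inl, Sum.elim_inr, Finset.prod_const, one_pow, mul_one]
  rw [abs_mul, abs_mul, abs_pow, abs_neg, abs_one, one_pow, mul_one]
  have : |((Equiv.Perm.sign (Equiv.sumComm β β) : ℤ) : ℝ)| = 1 := by
    rcases Int.units_eq_one_or (Equiv.Perm.sign (Equiv.sumComm β β)) with h | h <;> rw [h] <;> simp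
  rw [this, one_mul]

end Pool.Agent.J4.H50.CV
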