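import Pool.Agent.J4.H50.CV.A2
import Pool.Agent.J4.H50.CV.Rot
import Pool.Agent.K4H13.CV.Asm5

/-!
# The product of the nonzero values of an integral linear form
-/

set_option autoImplicit false

open Complex Filter Topology Set UpperHalfPlane MatrixGroups CongruenceSubgroup

namespace Pool.Agent.J4.H50.CV

open Pool.Agent.TH940 (prim prim_deriv Fr prim_fricke Pers prim_near prim_line exp_norm)
open Pool.Agent.Y18.BSD
open Pool.Agent.K4H13.CV
open W388.LV (SF bf pet IsNewBasis)
open Pool.Agent.W347.LV (bf_sum bf_zero pet_sum_right pet_zero_right)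

variable {N : ℕ} [NeZero N]

/-- **Independence**: a combination of newforms of the same sign whose coefficients up to `100 N²`
prime to the level vanish is zero. -/
theorem indep' (hN : N.Prime) {B : Finset (Cf2 N)} (hB : IsNewBasis N 2 B) (F : Finset B) (δ : ℝ)
    (hF : ∀ f ∈ F, W388.IsNewf N 2 f.1 δ) (w : F → ℝ)
    (hw : ∀ n ∈ {n : ℕ | n ≤ 100 * N ^ 2 ∧ n.Coprime N}, ∑ f : F, w f * (co f.1.1 n).re = 0) :
    w = 0 := by
  set h : Cf2 N := ∑ g ∈ B, cc F w g • g with hh
  have hco : ∀ n, co h n = ∑ f : F, ((w f : ℝ) : ℂ) * co f.1.1 n := by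
    intro n
    have h1 := bf_sum (N := N) (k := 2) B (cc F w) n
    have h2 := cc_sum F w (fun g => co g n)
    exact h1.trans h2
  have hre : ∀ f : F, ∀ n, ((co f.1.1 n).re : ℂ) = co f.1.1 n := by
    intro f n
    apply Complex.ext
    · rw [Complex.ofReal_re]
    · rw [Complex.ofReal_im]; exact ((hF f.1 f.2).real n).symm
  have hco' : ∀ n, n ≤ 100 * N ^ 2 → n.Coprime N → co h n = 0 := by
    intro n h1 h2
    rw [hco]
    have h3 := hw n ⟨h1, h2⟩
    have h4 : ((∑ f : F, w f * (co f.1.1 n).re : ℝ) : ℂ) = 0 := by rw [h3]; simp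
    rw [← h4]
    push_cast
    exact Finset.sum_congr rfl fun f _ => by rw [hre f n]
  have hN' : ∀ m, m ≠ 0 → co h (N * m) = (δ : ℂ) * co h m := by
    intro m hm
    rw [hco, hco, Finset.mul_sum]
    refine Finset.sum_congr rfl fun f _ => ?_
    have h1 := co_level (hF f.1 f.2) hN m hm
    have h2 := an N hN f.1.1 δ (hF f.1 f.2)
    have h3 : co f.1.1 N = (δ : ℂ) := by
      rw [show co f.1.1 N = (qExpansion 1 f.1.1).coeff N from rfl, h2]
    rw [h1, h3]
    ring
  have hall : ∀ n, n ≤ 100 * N ^ 2 → co h n = 0 := by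
    intro n
    induction n using Nat.strong_induction_on with
    | _ n ih =>
      intro hn
      rcases Nat.eq_zero_or_pos n with rfl | hn0
      · exact W388.coeff_zero h
      · by_cases hc : n.Coprime N
        · exact hco' n hn hc
        · have hd : N ∣ n := by
            by_contra hd
            exact hc ((Nat.Prime.coprime_iff_not_dvd hN).2 hd).symm
          obtain ⟨m, rfl⟩ := hd
          have hm : m ≠ 0 := by rintro rfl; simp at hn0
          rw [hN' m hm]
          have hlt : m < N * m := by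
            have := hN.two_le
            nlinarith [Nat.pos_of_ne_zero hm]
          rw [ih m hlt (hlt.le.trans hn), mul_zero]
  have hfr : Fr h (δ : ℂ) := by
    intro τ τ' hτ
    rw [hh, ev_sum, ev_sum, Finset.mul_sum]
    have h1 := cc_sum F w (fun g => g τ')
    have h2 := cc_sum F w (fun g => -(δ : ℂ) * (N : ℂ) * (τ : ℂ) ^ 2 * g τ)
    rw [h1]
    have h3 : ∑ g ∈ B, -(δ : ℂ) * (N : ℂ) * (τ : ℂ) ^ 2 * (cc F w g * g τ) =
        ∑ g ∈ B, cc F w g * (-(δ : ℂ) * (N : ℂ) * (τ : ℂ) ^ 2 * g τ) :=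
      Finset.sum_congr rfl fun g _ => by ring
    rw [h3, h2]
    refine Finset.sum_congr rfl fun f _ => ?_
    have h4 := newf_fr (hF f.1 f.2) τ τ' hτ
    rw [h4]
  have hzero : h = 0 := by
    by_cases hne : F.Nonempty
    · obtain ⟨f0, hf0⟩ := hne
      refine sturm red N hN h (δ : ℂ) ?_ hfr hall
      rcases (hF f0 hf0).sign with h1 | h1 <;> rw [h1] <;> norm_num
    · rw [Finset.not_nonempty_iff_eq_empty] at hne
      rw [hh]
      refine Finset.sum_eq_zero fun g _ => ?_
      have : cc F w g = 0 := by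
        unfold cc
        rw [dif_neg]
        rintro ⟨hb, h⟩
        rw [hne] at h
        simp at h
      rw [this, zero_smul]
  funext f
  have hP := W388.LV.q_pet
  have h1 := pet_sum_right hP N 2 f.1.1 B (cc F w)
  have h2 : (∑ g ∈ B, cc F w g • g : Cf2 N) = 0 := hzero
  rw [h2, pet_zero_right hP] at h1
  have h3 : cc F w f.1.1 = ((w f : ℝ) : ℂ) := by
    unfold cc
    rw [dif_pos ⟨f.1.2, f.2⟩]
  rw [Finset.sum_eq_single f.1.1] at h1
  · rw [h3] at h1
    have h4 : (pet N 2 f.1.1 f.1.1) ≠ 0 := by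
      intro h5
      have h6 := ((hP N 2).2.2.2 f.1.1).2.2 (by
        intro h0
        have h7 : bf f.1.1 1 = 1 := (hF f.1 f.2).one
        rw [h0, bf_zero] at h7
        exact zero_ne_one h7)
      rw [h5] at h6
      simp at h6
    have h5 : ((w f : ℝ) : ℂ) = 0 := by
      rcases mul_eq_zero.1 h1.symm with h6 | h6
      · exact h6
      · exact absurd h6 h4
    exact_mod_cast h5
  · intro g hg hne
    rw [hB.orth f.1.1 f.1.2 g hg (Ne.symm hne), mul_zero]
  · intro hn
    exact absurd f.1.2 hn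

open Classical in
/-- **The product of the nonzero values**, for a lattice `Λ` with large covolume. -/
theorem prod_core (H : HYP) (hN : N.Prime) (h2 : N ≠ 2) {B : Finset (Cf2 N)}
    (hB : IsNewBasis N 2 B) (hg : 1 ≤ B.card) (Λ : AddSubgroup (B → ℂ))
    (hκ : ∀ v : B ⊕ B → B → ℂ, (∀ i, v i ∈ Λ) → (RM v).det ≠ 0 →
      1 / (N : ℝ) ^ (296 * B.card) ≤ |(RM v).det|)
    (s : Fin (N + 2) → B → ℂ) (hs : ∀ i, s i ∈ Λ) (hsb : ∀ i f, ‖s i f‖ ≤ 8 * (N : ℝ) ^ 4)
    (hspan : Submodule.span ℝ (Set.range s) = ⊤) (δ : ℝ) (I : B → ℝ)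
    (hsg : ∀ f, I f ≠ 0 → W388.IsNewf N 2 f.1 δ)
    (hI : ∀ n : ℕ, n.Coprime N → (fun f : B => (((co f.1 n).re * I f : ℝ) : ℂ)) ∈ Λ) :
    1 / (N : ℝ) ^ (330 * B.card) ≤
      ∏ f ∈ (Finset.univ : Finset B).filter (fun f => I f ≠ 0), |I f| := by
  have hN3 := three_le hN h2
  have hN0 : (0 : ℝ) < N := by linarith
  have hN1 : (1 : ℝ) ≤ N := by linarith
  set F : Finset B := (Finset.univ : Finset B).filter (fun f => I f ≠ 0) with hFdef
  have hF : ∀ f ∈ F, W388.IsNewf N 2 f.1 δ := by
    intro f hf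
    exact hsg f (Finset.mem_filter.1 hf).2
  obtain ⟨n, hn1, hn2⟩ := exists_det (F := F) (S := {n : ℕ | n ≤ 100 * N ^ 2 ∧ n.Coprime N})
    (fun n f => (co f.1.1 n).re) (fun w hw => indep' hN hB F δ hF w hw)
  have key := detIneq2 Λ (1 / (N : ℝ) ^ (296 * B.card)) hκ s hs
    (10 ^ 4 * (N : ℝ) ^ 4) ?_ ?_ hspan F I ?_
    (fun i j => (co j.1.1 (n i)).re) hn2 ?_ ?_
  · -- numerics
    rw [Fintype.card_coe] at key
    have hc := card_le H hN h2 hB
    have s1 := (dimS H hN h2 hB).1
    rw [s1] at hc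
    have h10 : (10 : ℝ) ≤ (N : ℝ) ^ 3 := by
      calc (10 : ℝ) ≤ 3 ^ 3 := by norm_num
        _ ≤ (N : ℝ) ^ 3 := by gcongr
    have k1 : ((2 * B.card : ℕ) : ℝ) ^ (2 * B.card) ≤ (N : ℝ) ^ (2 * B.card) := by
      have : ((2 * B.card : ℕ) : ℝ) ≤ N := by
        have : 2 * B.card ≤ N := by omega
        exact_mod_cast this
      gcongr
    have k2 : (10 ^ 4 * (N : ℝ) ^ 4) ^ (2 * B.card) ≤ (N : ℝ) ^ (32 * B.card) := by
      calc (10 ^ 4 * (N : ℝ) ^ 4) ^ (2 * B.card) ≤ (((N : ℝ) ^ 3) ^ 4 * (N : ℝ) ^ 4) ^ (2 * B.card) := by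
            gcongr
        _ = (N : ℝ) ^ (32 * B.card) := by
            rw [← pow_mul, ← pow_add, ← pow_mul]
            congr 1
            ring
    have hP0 : 0 ≤ ∏ f ∈ F, |I f| := Finset.prod_nonneg fun f _ => abs_nonneg _
    have k4 : 1 / (N : ℝ) ^ (296 * B.card) ≤ (N : ℝ) ^ (34 * B.card) * ∏ f ∈ F, |I f| := by
      refine key.trans ?_
      calc _ ≤ (N : ℝ) ^ (2 * B.card) * (N : ℝ) ^ (32 * B.card) * ∏ f ∈ F, |I f| := by
            refine mul_le_mul_of_nonneg_right ?_ hP0
            exact mul_le_mul k1 k2 (by positivity) (by positivity)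
        _ = (N : ℝ) ^ (34 * B.card) * ∏ f ∈ F, |I f| := by
            rw [← pow_add]
            congr 2
            ring
    rw [div_le_iff₀ (by positivity)] at k4 ⊢
    calc (1 : ℝ) ≤ ((N : ℝ) ^ (34 * B.card) * ∏ f ∈ F, |I f|) * (N : ℝ) ^ (296 * B.card) := k4
      _ = (∏ f ∈ F, |I f|) * ((N : ℝ) ^ (34 * B.card) * (N : ℝ) ^ (296 * B.card)) := by ring
      _ = _ := by
        rw [← pow_add]
        congr 2
        ring
  · have : (1 : ℝ) ≤ (N : ℝ) ^ 4 := one_le_pow₀ hN1
    linarith
  · intro i f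
    refine (hsb i f).trans ?_
    have : (0 : ℝ) ≤ (N : ℝ) ^ 4 := by positivity
    linarith
  · intro f hf
    exact (Finset.mem_filter.1 hf).2
  · intro i j
    obtain ⟨ε, hε⟩ := hB.newf j.1.1 j.1.2
    refine (Complex.abs_re_le_norm _).trans ((coef N hN j.1.1 ε hε (n i)).trans ?_)
    have e1 : ((n i : ℕ) : ℝ) ≤ 100 * (N : ℝ) ^ 2 := by
      have := (hn1 i).1
      exact_mod_cast this
    calc ((n i : ℕ) : ℝ) ^ 2 ≤ (100 * (N : ℝ) ^ 2) ^ 2 := by gcongr
      _ = _ := by ring
  · intro i
    refine (congrArg (· ∈ Λ) ?_).mp (hI (n i) (hn1 i).2)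
    funext f
    by_cases h : f ∈ F
    · rw [dif_pos h]
    · rw [dif_neg h]
      have e1 : I f = 0 := by
        by_contra h3
        exact h (Finset.mem_filter.2 ⟨Finset.mem_univ _, h3⟩)
      rw [e1, mul_zero, Complex.ofReal_zero]

open Classical in
/-- **The product of the nonzero values of an integral linear form**, one sign. -/
theorem prod_form (H : HYP) (hN : N.Prime) (h2 : N ≠ 2) {B : Finset (Cf2 N)}
    (hB : IsNewBasis N 2 B) (hg : 1 ≤ B.card) {V : B → ℂ} (hV : V ∈ FF B) (b : Bool) (δ : ℝ)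
    (hδ : δ = 1 ∨ δ = -1) {ε : B → ℝ} (hε : ∀ f : B, W388.IsNewf N 2 f.1 (ε f)) :
    1 / (N : ℝ) ^ (334 * B.card) ≤
      ∏ f ∈ (Finset.univ : Finset B).filter (fun f => ε f = δ ∧ pt b (V f) ≠ 0), |pt b (V f)| := by
  have hN3 := three_le hN h2
  have hN0 : (0 : ℝ) < N := by linarith
  have hN1 : (1 : ℝ) ≤ N := by linarith
  have h2N : ¬ 2 ∣ N := fun h => h2 ((Nat.prime_dvd_prime_iff_eq Nat.prime_two hN).1 h).symm
  have hB' : ∀ f ∈ B, ∃ ε : ℝ, W388.IsNewf N 2 f ε := fun f hf => hB.newf f hf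
  obtain ⟨δ', hδ1, hδ2⟩ := gen N hN
  -- the vector
  set U : B → ℂ := fun f => V f + (if b then (1 : ℂ) else -1) * starRingEnd ℂ (V f) with hU
  have hUF : U ∈ FF B := by
    have h1 := FF_conj hB' hV
    cases b
    · refine (congrArg (· ∈ FF B) ?_).mp ((FF B).sub_mem hV h1)
      funext f
      simp only [hU, Pi.sub_apply, Bool.false_eq_true, if_false]
      ring
    · refine (congrArg (· ∈ FF B) ?_).mp ((FF B).add_mem hV h1)
      funext f
      simp only [hU, Pi.add_apply, if_true]
      ring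
  have hWF : (fun f => U f + (δ : ℂ) * ((ε f : ℂ) * U f)) ∈ FF B := by
    have h1 := FF_star hε hUF
    rcases hδ with h | h
    · refine (congrArg (· ∈ FF B) ?_).mp ((FF B).add_mem hUF h1)
      funext f
      rw [h]
      simp only [Pi.add_apply]
      push_cast
      ring
    · refine (congrArg (· ∈ FF B) ?_).mp ((FF B).sub_mem hUF h1)
      funext f
      rw [h]
      simp only [Pi.sub_apply]
      push_cast
      ring
  have hgood := FF_good hB' h2N hWF
  set I : B → ℝ := fun f => ((co f.1 2).re - 3) * (2 * pt b (V f)) * (1 + δ * ε f) with hI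
  have hIc : ∀ f : B, (if b then (1 : ℂ) else Complex.I) * ((I f : ℝ) : ℂ) =
      (co f.1 2 - 3) * (U f + (δ : ℂ) * ((ε f : ℂ) * U f)) := by
    intro f
    have e1 := co_real (hε f) 2
    have e2 := pt_eq b (V f)
    rw [hU, hI]
    simp only
    rw [← e2]
    conv_rhs => rw [e1]
    push_cast
    ring
  have hco3 : ∀ f : B, co f.1 2 - 3 ≠ 0 := by
    intro f h
    exact two red N hN h2 f.1 (ε f) (hε f) (sub_eq_zero.1 h)
  have hco3' : ∀ f : B, (co f.1 2).re - 3 ≠ 0 := by
    intro f h
    apply hco3 f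
    rw [co_real (hε f) 2]
    exact_mod_cast congrArg (fun x : ℝ => (x : ℂ)) h
  have hFeq : (Finset.univ : Finset B).filter (fun f => I f ≠ 0) =
      (Finset.univ : Finset B).filter (fun f => ε f = δ ∧ pt b (V f) ≠ 0) := by
    ext f
    simp only [Finset.mem_filter, Finset.mem_univ, true_and]
    rw [hI]
    simp only
    constructor
    · intro h
      have h3 : pt b (V f) ≠ 0 := by
        intro h4
        apply h
        rw [h4]
        ring
      refine ⟨?_, h3⟩
      by_contra h4
      apply h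
      have : 1 + δ * ε f = 0 := by
        rcases hδ with h5 | h5 <;> rcases (hε f).sign with h6 | h6 <;> rw [h5, h6] at h4 ⊢ <;>
          first | (exact absurd rfl h4) | norm_num
      rw [this, mul_zero]
    · rintro ⟨h3, h4⟩
      rw [h3]
      have : 1 + δ * δ = 2 := by
        rcases hδ with h5 | h5 <;> rw [h5] <;> norm_num
      rw [this]
      exact mul_ne_zero (mul_ne_zero (hco3' f) (mul_ne_zero two_ne_zero h4)) two_ne_zero
  have hsg : ∀ f, I f ≠ 0 → W388.IsNewf N 2 f.1 δ := by
    intro f hf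
    have h3 : f ∈ (Finset.univ : Finset B).filter (fun f => I f ≠ 0) :=
      Finset.mem_filter.2 ⟨Finset.mem_univ _, hf⟩
    rw [hFeq] at h3
    have h4 := (Finset.mem_filter.1 h3).2.1
    have := hε f
    rwa [h4] at this
  have hsb : ∀ i f, ‖pv B (δ' i) f‖ ≤ 8 * (N : ℝ) ^ 4 := by
    intro i f
    have e1 := per_bd f.1 (coef N hN f.1 (ε f) (hε f)) (δ' i) ((N : ℝ) ^ 2) (one_le_pow₀ hN1)
      (by
        have := hδ1 i
        rw [← Int.cast_abs]
        exact_mod_cast this)
    refine e1.trans (le_of_eq ?_)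
    ring
  -- the product
  have hmain : 1 / (N : ℝ) ^ (330 * B.card) ≤
      ∏ f ∈ (Finset.univ : Finset B).filter (fun f => I f ≠ 0), |I f| := by
    cases b with
    | true =>
      refine prod_core H hN h2 hB hg (LL B) (fun v hv hd => kappa H hN h2 hB hg v hv hd)
        (fun i => pv B (δ' i)) (fun i => pv_mem B _) hsb (span_short H hN h2 hB δ' hδ2) δ I hsg ?_
      intro n hn
      refine (congrArg (· ∈ LL B) ?_).mp (hgood n hn)
      funext f
      have e1 := hIc f
      simp only [if_true, one_mul] at e1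
      rw [← e1, Complex.ofReal_mul (co f.1 n).re (I f), ← co_real (hε f)]
    | false =>
      let m : (B → ℂ) →+ (B → ℂ) :=
        { toFun := fun v f => Complex.I * v f
          map_zero' := by funext f; simp
          map_add' := fun v w => by funext f; simp [mul_add] }
      refine prod_core H hN h2 hB hg ((LL B).comap m) (fun v hv hd => ?_)
        (fun i f => -Complex.I * pv B (δ' i) f) (fun i => ?_) (fun i f => ?_) ?_ δ I hsg ?_
      · rw [← det_rot v]
        refine kappa H hN h2 hB hg _ (fun i => hv i) ?_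
        intro h0
        apply hd
        have := det_rot v
        rw [h0, abs_zero] at this
        exact abs_eq_zero.1 this.symm
      · show m (fun f => -Complex.I * pv B (δ' i) f) ∈ LL B
        refine (congrArg (· ∈ LL B) ?_).mp (pv_mem B (δ' i))
        funext f
        show _ = Complex.I * (-Complex.I * pv B (δ' i) f)
        linear_combination (pv B (δ' i) f) * Complex.I_mul_I
      · rw [norm_mul, norm_neg, Complex.norm_I, one_mul]
        exact hsb i f
      · let L : (B → ℂ) →ₗ[ℝ] (B → ℂ) :=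
          { toFun := fun v f => -Complex.I * v f
            map_add' := fun v w => by funext f; simp [mul_add]
            map_smul' := fun c v => by
              funext f
              simp only [Pi.smul_apply, Complex.real_smul, RingHom.id_apply]
              ring }
        have hL : Function.Surjective L := by
          intro v
          refine ⟨fun f => Complex.I * v f, ?_⟩
          funext f
          show -Complex.I * (Complex.I * v f) = v f
          linear_combination (-(v f)) * Complex.I_mul_I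
        have h3 := span_short H hN h2 hB δ' hδ2
        have h4 : (Set.range fun i => (fun f => -Complex.I * pv B (δ' i) f : B → ℂ)) =
            L '' (Set.range fun i => pv B (δ' i)) := by
          rw [← Set.range_comp]
          rfl
        rw [h4, ← Submodule.map_span, h3, Submodule.map_top, LinearMap.range_eq_top]
        exact hL
      · intro n hn
        refine (congrArg (· ∈ LL B) ?_).mp (hgood n hn)
        funext f
        have e1 := hIc f
        simp only [Bool.false_eq_true, if_false] at e1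
        show _ = Complex.I * (((co f.1 n).re * I f : ℝ) : ℂ)
        rw [← e1, Complex.ofReal_mul (co f.1 n).re (I f), ← co_real (hε f)]
        ring
  rw [hFeq] at hmain
  have hc : ((Finset.univ : Finset B).filter (fun f => ε f = δ ∧ pt b (V f) ≠ 0)).card ≤ B.card := by
    have := Finset.card_le_univ
      ((Finset.univ : Finset B).filter (fun f => ε f = δ ∧ pt b (V f) ≠ 0))
    rwa [Fintype.card_coe] at this
  have hbd : ∀ f ∈ (Finset.univ : Finset B).filter (fun f => ε f = δ ∧ pt b (V f) ≠ 0),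
      |I f| ≤ (N : ℝ) ^ 4 * |pt b (V f)| := by
    intro f hf
    have h3 := (Finset.mem_filter.1 hf).2.1
    have e2 := H.qu N hN h2 f.1 (ε f) (hε f)
    have e3 : |(co f.1 2).re - 3| ≤ 6 := by
      have e4 := Complex.abs_re_le_norm (co f.1 2)
      have e6 : 0 < 1 / (100 * (N : ℝ)) ^ 4 := by positivity
      rw [abs_le] at e4 ⊢
      constructor <;> linarith
    rw [hI]
    simp only
    rw [h3]
    have : 1 + δ * δ = 2 := by
      rcases hδ with h5 | h5 <;> rw [h5] <;> norm_num
    rw [this, abs_mul, abs_mul, abs_mul, abs_two]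
    have h81 : (81 : ℝ) ≤ (N : ℝ) ^ 4 := by
      calc (81 : ℝ) = 3 ^ 4 := by norm_num
        _ ≤ (N : ℝ) ^ 4 := by gcongr
    nlinarith [abs_nonneg (pt b (V f)), mul_le_mul_of_nonneg_right e3 (abs_nonneg (pt b (V f)))]
  have h5 : ∏ f ∈ (Finset.univ : Finset B).filter (fun f => ε f = δ ∧ pt b (V f) ≠ 0), |I f| ≤
      (N : ℝ) ^ (4 * B.card) *
        ∏ f ∈ (Finset.univ : Finset B).filter (fun f => ε f = δ ∧ pt b (V f) ≠ 0), |pt b (V f)| := by
    refine (Finset.prod_le_prod (fun f _ => abs_nonneg _) hbd).trans ?_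
    rw [Finset.prod_mul_distrib, Finset.prod_const, ← pow_mul]
    refine mul_le_mul_of_nonneg_right ?_ (Finset.prod_nonneg fun f _ => abs_nonneg _)
    exact pow_le_pow_right₀ hN1 (by omega)
  have h6 := hmain.trans h5
  rw [div_le_iff₀ (by positivity)] at h6 ⊢
  refine h6.trans (le_of_eq ?_)
  rw [show 334 * B.card = 4 * B.card + 330 * B.card by ring, pow_add]
  ring

end Pool.Agent.J4.H50.CV
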