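import Pool.Agent.J4.H50.CV.A2
import Pool.Agent.Y18.BSD.Lf
import Pool.Agent.H385R2.Gauss

/-!
# The twisted central values and the boundary values
-/

set_option autoImplicit false

open Complex Filter Topology Set UpperHalfPlane MatrixGroups CongruenceSubgroup ZMod

namespace Pool.Agent.J4.H50.CV

open Pool.Agent.TH940 (prim prim_deriv Fr prim_fricke Pers prim_near prim_line exp_norm coeff_bd mellin2)
open Pool.Agent.Y18.BSD
open Pool.Agent.K4H13.CV
open Pool.Agent.W440.TW (t_twist)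

variable {N : ℕ} [NeZero N]

/-- `L` is the entire continuation of `∑ χ(n) λ_f(n) n^(-s)` -/
structure IsLc (f : Cf2 N) {q : ℕ} (χ : DirichletCharacter ℂ q) (L : ℂ → ℂ) : Prop where
  diff : Differentiable ℂ L
  eq : ∀ s : ℂ, 3 < s.re → L s =
    ∑' n : ℕ, χ (n : ZMod q) * (W388.lamf f n : ℂ) * (n : ℂ) ^ (-s)

lemma IsLc.unique {f : Cf2 N} {q : ℕ} {χ : DirichletCharacter ℂ q} {L L' : ℂ → ℂ}
    (h : IsLc f χ L) (h' : IsLc f χ L') : L = L' := by
  have hFa : AnalyticOnNhd ℂ L univ := fun z _ => h.diff.analyticAt z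
  have hGa : AnalyticOnNhd ℂ L' univ := fun z _ => h'.diff.analyticAt z
  refine hFa.eq_of_eventuallyEq hGa (z₀ := ((4 : ℝ) : ℂ)) ?_
  have : ∀ᶠ z in 𝓝 (((4 : ℝ)) : ℂ), 3 < z.re := by
    refine (Complex.continuous_re.isOpen_preimage _ isOpen_Ioi).mem_nhds ?_
    show (3 : ℝ) < (((4 : ℝ)) : ℂ).re
    rw [Complex.ofReal_re]
    norm_num
  filter_upwards [this] with z hz
  rw [h.eq z hz, h'.eq z hz]

theorem exists_IsLc {f : Cf2 N} {ε : ℝ} (hf : W388.IsNewf N 2 f ε) (q : ℕ) [NeZero q]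
    (χ : DirichletCharacter ℂ q) (hχ : χ.IsPrimitive) (hco : Nat.Coprime q N) :
    ∃ L : ℂ → ℂ, IsLc f χ L ∧
      gaussSum χ⁻¹ (stdAddChar (N := q)) * L (1 / 2) =
        ∑ u : (ZMod q)ˣ, χ⁻¹ (u : ZMod q) * bv f (((u : ZMod q).val : ℚ) / q) := by
  have hq1 : (1 : ℝ) ≤ q := by exact_mod_cast Nat.pos_of_ne_zero (NeZero.ne q)
  have hN1 : (1 : ℝ) ≤ N := by exact_mod_cast Nat.pos_of_ne_zero (NeZero.ne N)
  have hs1 : (1 : ℝ) ≤ Real.sqrt N := by rw [Real.one_le_sqrt]; exact hN1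
  obtain ⟨C, hC0, hC⟩ := coeff_bd f
  obtain ⟨K, -, hK⟩ := mellin2 1 C (by norm_num) (by norm_num)
  obtain ⟨w', hw', hth⟩ := t_twist N 2 (by norm_num) f ε hf q χ hχ hco
  obtain ⟨F, hF1, hF2, hF3, -⟩ := hK (fun n => χ (n : ZMod q) * (qExpansion 1 f).coeff n)
    (Real.sqrt N * q) (by nlinarith) (by rw [W388.coeff_zero f, mul_zero])
    (fun n hn => by
      rw [norm_mul]
      have h1 := DirichletCharacter.norm_le_one χ (n : ZMod q)
      calc ‖χ (n : ZMod q)‖ * ‖(qExpansion 1 f).coeff n‖ ≤ 1 * ‖(qExpansion 1 f).coeff n‖ :=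
            mul_le_mul_of_nonneg_right h1 (norm_nonneg _)
        _ ≤ _ := by rw [one_mul]; exact hC n hn) w' hw'
    (fun t ht => by
      have := hth t ht
      rw [zpow_ofNat] at this
      exact this)
  refine ⟨F, ⟨hF1, fun s hs => ?_⟩, ?_⟩
  · rw [hF2 s (by linarith)]
    refine tsum_congr fun n => ?_
    have hre : (((qExpansion 1 f).coeff n).re : ℂ) = (qExpansion 1 f).coeff n := by
      apply Complex.ext
      · rw [Complex.ofReal_re]
      · rw [Complex.ofReal_im]; exact (hf.real n).symm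
    rcases Nat.eq_zero_or_pos n with rfl | hn
    · unfold W388.lamf
      rw [W388.coeff_zero f]
      simp
    · have hn' : (0 : ℝ) < n := by exact_mod_cast hn
      have hnc : (n : ℂ) ≠ 0 := by exact_mod_cast hn.ne'
      unfold W388.lamf
      have e1 : ((((2 : ℤ) : ℝ) - 1) / 2) = 1 / 2 := by norm_num
      rw [e1, Complex.ofReal_div, hre, Complex.ofReal_cpow hn'.le, neg_add, Complex.cpow_add _ _ hnc]
      push_cast
      rw [Complex.cpow_neg (n : ℂ) (1 / 2)]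
      ring
  · have hχi : χ⁻¹.IsPrimitive := Pool.Agent.W440.TW.inv_primitive χ hχ
    refine link f (newf_fr hf) q hco χ⁻¹ hχi (F (1 / 2)) w' (fun X Y hX hY hXY => ?_)
    rw [inv_inv]
    refine hF3 X Y hX hY ?_
    rw [hXY, mul_pow, Real.sq_sqrt (by linarith)]

/-! ### real characters -/

lemma sq_inv {q : ℕ} {χ : DirichletCharacter ℂ q} (hχ : χ ^ 2 = 1) : χ⁻¹ = χ := by
  rw [inv_eq_iff_mul_eq_one, ← sq]
  exact hχ

/-- the values of a real character -/
lemma real_val {q : ℕ} {χ : DirichletCharacter ℂ q} (hχ : χ ^ 2 = 1) (u : (ZMod q)ˣ) :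
    χ (u : ZMod q) = 1 ∨ χ (u : ZMod q) = -1 := by
  have h1 : (χ ^ 2) (u : ZMod q) = 1 := by rw [hχ, MulChar.one_apply_coe]
  rw [MulChar.pow_apply_coe, sq] at h1
  exact mul_self_eq_one_iff.1 h1

lemma real_conj {q : ℕ} {χ : DirichletCharacter ℂ q} (hχ : χ ^ 2 = 1) (a : ZMod q) :
    starRingEnd ℂ (χ a) = χ a := by
  by_cases h : IsUnit a
  · obtain ⟨u, rfl⟩ := h
    rcases real_val hχ u with h | h <;> rw [h] <;> simp
  · rw [χ.map_nonunit h, map_zero]

/-- the integer values -/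
noncomputable def vi {q : ℕ} (χ : DirichletCharacter ℂ q) (u : (ZMod q)ˣ) : ℤ :=
  if χ (u : ZMod q) = 1 then 1 else -1

lemma vi_eq {q : ℕ} {χ : DirichletCharacter ℂ q} (hχ : χ ^ 2 = 1) (u : (ZMod q)ˣ) :
    ((vi χ u : ℤ) : ℂ) = χ (u : ZMod q) := by
  unfold vi
  rcases real_val hχ u with h | h
  · rw [if_pos h, h]; simp
  · have : ¬ ((-1 : ℂ) = 1) := by norm_num
    rw [h, if_neg this]; simp

/-- the linear form of a real character -/
noncomputable def Tc (f : Cf2 N) {q : ℕ} [NeZero q] (χ : DirichletCharacter ℂ q) : ℂ :=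
  ∑ u : (ZMod q)ˣ, ((vi χ u : ℤ) : ℂ) * bv f (((u : ZMod q).val : ℚ) / q)

lemma bv_add_int (f : Cf2 N) (r : ℚ) (m : ℤ) : bv f (r + m) = bv f r := by
  induction m using Int.induction_on with
  | zero => simp
  | succ i ih =>
    rw [← ih, ← bv_period f (r + ((i : ℤ) : ℚ))]
    congr 1
    push_cast
    ring
  | pred i ih =>
    rw [← bv_period f (r + ((-(i : ℤ) - 1 : ℤ) : ℚ)), ← ih]
    congr 1
    push_cast
    ring

lemma den_u {q : ℕ} [NeZero q] (hco : Nat.Coprime q N) (u : (ZMod q)ˣ) :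
    (((u : ZMod q).val : ℚ) / q).den.Coprime N := by
  rw [den_iff]
  refine ⟨q, hco, ((u : ZMod q).val : ℤ), ?_⟩
  have : (q : ℚ) ≠ 0 := by exact_mod_cast NeZero.ne q
  field_simp
  push_cast
  rfl

lemma den_u_le {q : ℕ} [NeZero q] (u : (ZMod q)ˣ) : (((u : ZMod q).val : ℚ) / q).den ≤ q := by
  have h1 : (((u : ZMod q).val : ℚ) / (q : ℚ)) = ((((u : ZMod q).val : ℤ) : ℚ) / ((q : ℤ) : ℚ)) := by
    push_cast; rfl
  have h2 := Rat.den_dvd (((u : ZMod q).val : ℤ)) (q : ℤ)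
  rw [Rat.divInt_eq_div, ← h1] at h2
  exact Nat.le_of_dvd (Nat.pos_of_ne_zero (NeZero.ne q)) (by exact_mod_cast h2)

lemma bv_neg_u (f : Cf2 N) {q : ℕ} [NeZero q] (u : (ZMod q)ˣ) :
    bv f (-((((-u : (ZMod q)ˣ) : ZMod q).val : ℚ) / q)) = bv f (((u : ZMod q).val : ℚ) / q) := by
  have hq : (q : ℚ) ≠ 0 := by exact_mod_cast NeZero.ne q
  have h1 : (((u : ZMod q).val + ((-u : (ZMod q)ˣ) : ZMod q).val : ℕ) : ZMod q) = 0 := by
    push_cast
    rw [ZMod.natCast_zmod_val, ZMod.natCast_zmod_val]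
    ring
  rw [ZMod.natCast_eq_zero_iff] at h1
  obtain ⟨k, hk⟩ := h1
  have h2 : (((u : ZMod q).val : ℚ) / q) =
      -((((-u : (ZMod q)ˣ) : ZMod q).val : ℚ) / q) + ((k : ℤ) : ℚ) := by
    have h3 : ((u : ZMod q).val : ℚ) + (((-u : (ZMod q)ˣ) : ZMod q).val : ℚ) = q * k := by
      exact_mod_cast hk
    rw [Int.cast_natCast, eq_neg_add_iff_add_eq, ← add_div, div_eq_iff hq, add_comm, h3]
    ring
  rw [h2, bv_add_int]

lemma Tc_conj {f : Cf2 N} {ε : ℝ} (hf : W388.IsNewf N 2 f ε) {q : ℕ} [NeZero q]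
    {χ : DirichletCharacter ℂ q} (hχ : χ ^ 2 = 1) (hco : Nat.Coprime q N) :
    starRingEnd ℂ (Tc f χ) = χ (-1) * Tc f χ := by
  unfold Tc
  rw [map_sum, Finset.mul_sum]
  refine Fintype.sum_equiv (Equiv.neg _) _ _ fun u => ?_
  have e1 := bv_neg_u f (-u)
  rw [neg_neg] at e1
  rw [map_mul, vi_eq hχ, real_conj hχ, Equiv.neg_apply, vi_eq hχ, ← bv_neg (newf_fr hf) hf.real _ (den_u hco u),
    e1, ← mul_assoc, ← map_mul]
  congr 2
  push_cast
  ring

lemma gauss_conj' {q : ℕ} [NeZero q] {χ : DirichletCharacter ℂ q} (hχ : χ ^ 2 = 1) :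
    starRingEnd ℂ (gaussSum χ (stdAddChar (N := q))) = χ (-1) * gaussSum χ (stdAddChar (N := q)) := by
  unfold gaussSum
  rw [map_sum, Finset.mul_sum]
  refine Fintype.sum_equiv (Equiv.neg _) _ _ fun a => ?_
  rw [map_mul, real_conj hχ, Equiv.neg_apply, ← AddChar.map_neg_eq_conj, ← mul_assoc, ← map_mul]
  congr 2
  ring

lemma sgn_val {q : ℕ} {χ : DirichletCharacter ℂ q} (hχ : χ ^ 2 = 1) :
    χ (-1) = 1 ∨ χ (-1) = -1 := by
  have h := real_val hχ (-1)
  simpa using h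

open Classical in
/-- the parity -/
noncomputable def par {q : ℕ} (χ : DirichletCharacter ℂ q) : Bool := decide (χ (-1) = 1)

/-- `1` or `i` -/
noncomputable def ii (b : Bool) : ℂ := if b then 1 else Complex.I

lemma pt_ii (b : Bool) (x : ℝ) : pt b (ii b * (x : ℂ)) = x := by
  unfold pt ii
  cases b <;> simp

lemma conj_ii {z : ℂ} {b : Bool} (h : starRingEnd ℂ z = (if b then 1 else -1) * z) :
    z = ii b * ((pt b z : ℝ) : ℂ) := by
  unfold ii pt
  cases b
  · simp only [Bool.false_eq_true, if_false] at h ⊢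
    have h1 : z.re = 0 := by
      have := congrArg Complex.re h
      simp at this
      linarith
    apply Complex.ext
    · simp [h1]
    · simp
  · simp only [if_true, one_mul] at h ⊢
    exact (Complex.conj_eq_iff_re.1 h).symm

lemma par_eq {q : ℕ} {χ : DirichletCharacter ℂ q} (hχ : χ ^ 2 = 1) :
    χ (-1) = if par χ then 1 else -1 := by
  unfold par
  rcases sgn_val hχ with h | h
  · rw [h]; simp
  · rw [h]
    have : ¬ ((-1 : ℂ) = 1) := by norm_num
    simp [this]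

/-- the Gauss sum up to the sign -/
lemma gauss_real {q : ℕ} [NeZero q] {χ : DirichletCharacter ℂ q} (hχ : χ ^ 2 = 1)
    (hp : χ.IsPrimitive) : ∃ e : ℤ, (e = 1 ∨ e = -1) ∧
      gaussSum χ (stdAddChar (N := q)) = ii (par χ) * (((e : ℝ) * Real.sqrt q : ℝ) : ℂ) := by
  have h1 := gauss_conj' hχ
  rw [par_eq hχ] at h1
  have h2 := conj_ii h1
  set x := pt (par χ) (gaussSum χ (stdAddChar (N := q))) with hx
  have h3 := H385.GaussAux.norm_sq_gaussSum hp
  have h4 : x ^ 2 = q := by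
    rw [← h3, h2, norm_mul]
    have : ‖ii (par χ)‖ = 1 := by
      unfold ii
      cases par χ <;> simp
    rw [this, one_mul, Complex.norm_real, Real.norm_eq_abs, sq_abs]
  have h5 : |x| = Real.sqrt q := by rw [← h4, Real.sqrt_sq_eq_abs]
  rcases abs_eq_abs.1 (h5.trans (abs_of_nonneg (Real.sqrt_nonneg _)).symm) with h | h
  · refine ⟨1, Or.inl rfl, ?_⟩
    rw [h2, h]; simp
  · refine ⟨-1, Or.inr rfl, ?_⟩
    rw [h2, h]; simp

/-- **the central value of the twist by a real character** -/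
theorem central {q : ℕ} [NeZero q] {χ : DirichletCharacter ℂ q} (hχ : χ ^ 2 = 1)
    (hp : χ.IsPrimitive) (hco : Nat.Coprime q N) : ∃ e : ℤ, (e = 1 ∨ e = -1) ∧
      ∀ (f : Cf2 N) (ε : ℝ), W388.IsNewf N 2 f ε → ∃ L : ℂ → ℂ, IsLc f χ L ∧
        L (1 / 2) = ((L (1 / 2)).re : ℂ) ∧
        Tc f χ = ii (par χ) * (((e : ℝ) * Real.sqrt q * (L (1 / 2)).re : ℝ) : ℂ) := by
  obtain ⟨e, he, hg⟩ := gauss_real hχ hp
  refine ⟨e, he, fun f ε hf => ?_⟩
  obtain ⟨L, hL, h⟩ := exists_IsLc hf q χ hp hco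
  rw [sq_inv hχ] at h
  have hT : gaussSum χ (stdAddChar (N := q)) * L (1 / 2) = Tc f χ := by
    rw [h]
    unfold Tc
    exact Finset.sum_congr rfl fun u _ => by rw [vi_eq hχ]
  have hg0 : gaussSum χ (stdAddChar (N := q)) ≠ 0 := by
    intro h0
    have h3 := H385.GaussAux.norm_sq_gaussSum hp
    rw [h0, norm_zero] at h3
    have : (q : ℝ) ≠ 0 := by exact_mod_cast NeZero.ne q
    apply this
    rw [← h3]
    norm_num
  have hc1 : (χ (-1) : ℂ) ≠ 0 := by
    rcases sgn_val hχ with h | h <;> rw [h] <;> norm_num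
  have hreal : starRingEnd ℂ (L (1 / 2)) = L (1 / 2) := by
    have h1 := Tc_conj hf hχ hco
    rw [← hT, map_mul, gauss_conj' hχ] at h1
    have h2 : (χ (-1) * gaussSum χ (stdAddChar (N := q))) * starRingEnd ℂ (L (1 / 2)) =
        (χ (-1) * gaussSum χ (stdAddChar (N := q))) * L (1 / 2) := by rw [h1]; ring
    exact mul_left_cancel₀ (mul_ne_zero hc1 hg0) h2
  have hre : L (1 / 2) = ((L (1 / 2)).re : ℂ) := (Complex.conj_eq_iff_re.1 hreal).symm
  refine ⟨L, hL, hre, ?_⟩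
  rw [← hT, hg, hre]
  push_cast
  rw [Complex.ofReal_re]
  ring

end Pool.Agent.J4.H50.CV
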