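import Pool.Agent.J4.H50.CV.A3
import Pool.Agent.J4.H50.CV.A4
import Pool.Agent.K4H13.CV.Fin
import Pool.Agent.K4H13.CV.Hyp

/-!
# The linear forms for all newforms
-/

set_option autoImplicit false

open Complex Filter Topology Set UpperHalfPlane MatrixGroups CongruenceSubgroup ZMod

namespace Pool.Agent.J4.H50.CV

open Pool.Agent.TH940 (prim prim_deriv Fr prim_fricke Pers prim_near prim_line exp_norm)
open Pool.Agent.Y18.BSD
open Pool.Agent.K4H13.CV
open W388.LV (SF bf pet IsNewBasis)

variable {N : ℕ} [NeZero N]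

open Classical in
/-- **The product of the nonzero values of an integral linear form.** -/
theorem prod_all (hN : N.Prime) (h2 : N ≠ 2) {B : Finset (Cf2 N)}
    (hB : IsNewBasis N 2 B) {V : B → ℂ} (hV : V ∈ FF B) (b : Bool) :
    1 / (N : ℝ) ^ (668 * B.card) ≤
      ∏ f ∈ (Finset.univ : Finset B).filter (fun f => pt b (V f) ≠ 0), |pt b (V f)| := by
  have hN3 := three_le hN h2
  have hN0 : (0 : ℝ) < N := by linarith
  rcases Nat.eq_zero_or_pos B.card with h0 | hg
  · have he : IsEmpty B := by
      rw [Finset.card_eq_zero] at h0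
      rw [h0]
      infer_instance
    rw [Finset.univ_eq_empty, Finset.filter_empty, Finset.prod_empty, h0]
    norm_num
  choose ε' hε' using hB.newf
  set ε : B → ℝ := fun f => ε' f.1 f.2 with hε0
  have hε : ∀ f : B, W388.IsNewf N 2 f.1 (ε f) := fun f => hε' f.1 f.2
  have h1 := prod_form hyp hN h2 hB hg hV b 1 (Or.inl rfl) hε
  have h3 := prod_form hyp hN h2 hB hg hV b (-1) (Or.inr rfl) hε
  have hsplit : (Finset.univ : Finset B).filter (fun f => pt b (V f) ≠ 0) =
      (Finset.univ : Finset B).filter (fun f => ε f = 1 ∧ pt b (V f) ≠ 0) ∪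
      (Finset.univ : Finset B).filter (fun f => ε f = -1 ∧ pt b (V f) ≠ 0) := by
    ext f
    simp only [Finset.mem_filter, Finset.mem_univ, true_and, Finset.mem_union]
    constructor
    · intro h
      rcases (hε f).sign with h5 | h5
      · exact Or.inl ⟨h5, h⟩
      · exact Or.inr ⟨h5, h⟩
    · rintro (h | h) <;> exact h.2
  have hdis : Disjoint ((Finset.univ : Finset B).filter (fun f => ε f = 1 ∧ pt b (V f) ≠ 0))
      ((Finset.univ : Finset B).filter (fun f => ε f = -1 ∧ pt b (V f) ≠ 0)) := by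
    rw [Finset.disjoint_left]
    intro f h5 h6
    have h7 := (Finset.mem_filter.1 h5).2.1
    have h8 := (Finset.mem_filter.1 h6).2.1
    rw [h7] at h8
    norm_num at h8
  rw [hsplit, Finset.prod_union hdis]
  have h4 : 1 / (N : ℝ) ^ (668 * B.card) = 1 / (N : ℝ) ^ (334 * B.card) *
      (1 / (N : ℝ) ^ (334 * B.card)) := by
    rw [one_div_mul_one_div, ← pow_add]
    congr 2
    ring
  rw [h4]
  exact mul_le_mul h1 h3 (by positivity) (Finset.prod_nonneg fun f _ => abs_nonneg _)

end Pool.Agent.J4.H50.CV
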