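import Pool.Agent.K4H13.CV.LA2

/-!
# Lattices and their powers: lower bounds for determinants
-/

set_option autoImplicit false

namespace Pool.Agent.J4.H50.CV

open Pool.Agent.K4H13.CV

/-- a lattice all of whose determinants are bounded below has a basis -/
theorem exists_basis {β : Type*} [Fintype β] [DecidableEq β] (Λ : AddSubgroup (β → ℂ)) (κ : ℝ)
    (hκ0 : 0 < κ)
    (hκ : ∀ v : β ⊕ β → β → ℂ, (∀ i, v i ∈ Λ) → (RM v).det ≠ 0 → κ ≤ |(RM v).det|)
    (v0 : β ⊕ β → β → ℂ) (hv0 : ∀ i, v0 i ∈ Λ) (hd0 : (RM v0).det ≠ 0) :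
    ∃ e : β ⊕ β → β → ℂ, (∀ i, e i ∈ Λ) ∧ (RM e).det ≠ 0 ∧
      ∀ w ∈ Λ, ∃ c : β ⊕ β → ℤ, ∀ f, w f = ∑ i, (c i : ℂ) * e i f := by
  classical
  set D : Set ℝ := {d | ∃ v : β ⊕ β → β → ℂ, (∀ i, v i ∈ Λ) ∧ (RM v).det ≠ 0 ∧ d = |(RM v).det|}
    with hD
  have hne : D.Nonempty := ⟨_, v0, hv0, hd0, rfl⟩
  have hbd : BddBelow D := ⟨κ, by rintro d ⟨v, h1, h2, rfl⟩; exact hκ v h1 h2⟩
  have hm : κ ≤ sInf D := le_csInf hne (by rintro d ⟨v, h1, h2, rfl⟩; exact hκ v h1 h2)
  have hm0 : 0 < sInf D := lt_of_lt_of_le hκ0 hm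
  obtain ⟨d, ⟨e, he1, he2, rfl⟩, hd⟩ := exists_lt_of_csInf_lt hne (by linarith : sInf D < 2 * sInf D)
  refine ⟨e, he1, he2, ?_⟩
  have hde : 0 < |(RM e).det| := abs_pos.2 he2
  -- the coefficients are zero or large
  have key : ∀ w' ∈ Λ, ∀ y : β ⊕ β → ℝ, (∀ f, w' f = ∑ k, ((y k : ℝ) : ℂ) * e k f) →
      ∀ i, y i ≠ 0 → 1 / 2 < |y i| := by
    intro w' hw' y hy i hi
    have h1 : RM (Function.update e i w') = (RM e).updateRow i (∑ k, y k • (RM e) k) := by
      ext r c
      by_cases hr : r = i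
      · subst hr
        rw [Matrix.updateRow_self, Finset.sum_apply]
        simp only [Pi.smul_apply, smul_eq_mul]
        unfold RM
        simp only [Matrix.of_apply, Function.update_self]
        rcases c with f | f
        · simp only [Sum.elim_inl]
          rw [hy f, Complex.re_sum]
          refine Finset.sum_congr rfl fun k _ => ?_
          rw [Complex.re_ofReal_mul]
        · simp only [Sum.elim_inr]
          rw [hy f, Complex.im_sum]
          refine Finset.sum_congr rfl fun k _ => ?_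
          rw [Complex.im_ofReal_mul]
      · rw [Matrix.updateRow_ne hr]
        unfold RM
        simp only [Matrix.of_apply, Function.update_of_ne hr]
    have h2 : (RM (Function.update e i w')).det = y i * (RM e).det := by
      rw [h1, Matrix.det_updateRow_sum, smul_eq_mul]
    have h3 : |(RM (Function.update e i w')).det| ∈ D := by
      refine ⟨_, fun j => ?_, ?_, rfl⟩
      · by_cases hj : j = i
        · subst hj
          rw [Function.update_self]
          exact hw'
        · rw [Function.update_of_ne hj]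
          exact he1 j
      · rw [h2]
        exact mul_ne_zero hi he2
    have h4 := csInf_le hbd h3
    rw [h2, abs_mul] at h4
    by_contra h5
    push Not at h5
    nlinarith
  intro w hw
  -- the real coordinates
  have hu : IsUnit (RM e).det := isUnit_iff_ne_zero.2 he2
  set x : β ⊕ β → ℝ := Matrix.vecMul (crd β w) (RM e)⁻¹ with hx
  have hx1 : Matrix.vecMul x (RM e) = crd β w := by
    rw [hx, Matrix.vecMul_vecMul, Matrix.nonsing_inv_mul _ hu, Matrix.vecMul_one]
  have hx2 : ∀ f, w f = ∑ k, ((x k : ℝ) : ℂ) * e k f := by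
    intro f
    apply Complex.ext
    · have h1 := congrFun hx1 (Sum.inl f)
      rw [Complex.re_sum]
      have h2 : (w f).re = crd β w (Sum.inl f) := rfl
      rw [h2, ← h1]
      simp only [Matrix.vecMul, dotProduct]
      refine Finset.sum_congr rfl fun k _ => ?_
      rw [Complex.re_ofReal_mul]
      rfl
    · have h1 := congrFun hx1 (Sum.inr f)
      rw [Complex.im_sum]
      have h2 : (w f).im = crd β w (Sum.inr f) := rfl
      rw [h2, ← h1]
      simp only [Matrix.vecMul, dotProduct]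
      refine Finset.sum_congr rfl fun k _ => ?_
      rw [Complex.im_ofReal_mul]
      rfl
  have hint : ∀ i, x i = (⌊x i⌋ : ℝ) := by
    intro i
    by_contra hne'
    have ht0 : 0 < Int.fract (x i) := by
      refine lt_of_le_of_ne (Int.fract_nonneg _) fun h => ?_
      apply hne'
      have := Int.floor_add_fract (x i)
      rw [← h] at this
      linarith
    have ht1 := Int.fract_lt_one (x i)
    have hfr : Int.fract (x i) = x i - ⌊x i⌋ := rfl
    have h1 := key (w - (⌊x i⌋ : ℤ) • e i) (Λ.sub_mem hw (Λ.zsmul_mem (he1 i) _))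
      (fun k => x k - if k = i then (⌊x i⌋ : ℝ) else 0) (fun f => by
        rw [Pi.sub_apply, Pi.smul_apply, zsmul_eq_mul, hx2 f]
        have : ∀ k, (((x k - if k = i then (⌊x i⌋ : ℝ) else 0 : ℝ)) : ℂ) * e k f =
            ((x k : ℝ) : ℂ) * e k f - if k = i then ((⌊x i⌋ : ℤ) : ℂ) * e k f else 0 := by
          intro k
          split_ifs <;> push_cast <;> ring
        simp only [this]
        rw [Finset.sum_sub_distrib, Finset.sum_ite_eq']
        simp) i (by simp only [if_true]; rw [← hfr]; exact ht0.ne')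
    have h2 := key ((⌊x i⌋ + 1 : ℤ) • e i - w) (Λ.sub_mem (Λ.zsmul_mem (he1 i) _) hw)
      (fun k => (if k = i then ((⌊x i⌋ + 1 : ℤ) : ℝ) else 0) - x k) (fun f => by
        rw [Pi.sub_apply, Pi.smul_apply, zsmul_eq_mul, hx2 f]
        have : ∀ k, (((if k = i then ((⌊x i⌋ + 1 : ℤ) : ℝ) else 0) - x k : ℝ) : ℂ) * e k f =
            (if k = i then ((⌊x i⌋ + 1 : ℤ) : ℂ) * e k f else 0) - ((x k : ℝ) : ℂ) * e k f := by
          intro k
          split_ifs <;> push_cast <;> ring
        simp only [this]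
        rw [Finset.sum_sub_distrib, Finset.sum_ite_eq']
        simp) i (by
          simp only [if_true]
          push_cast
          intro h
          linarith)
    simp only [if_true] at h1 h2
    rw [← hfr, abs_of_pos ht0] at h1
    have h3 : ((⌊x i⌋ + 1 : ℤ) : ℝ) - x i = 1 - Int.fract (x i) := by
      rw [hfr]
      push_cast
      ring
    rw [h3, abs_of_pos (by linarith)] at h2
    linarith
  refine ⟨fun i => ⌊x i⌋, fun f => ?_⟩
  rw [hx2 f]
  refine Finset.sum_congr rfl fun k _ => ?_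
  have h5 := hint k
  have h6 : ((x k : ℝ) : ℂ) = ((⌊x k⌋ : ℤ) : ℂ) := by
    conv_lhs => rw [h5]
    push_cast
    rfl
  rw [h6]

/-- vectors of the lattice with nonzero determinant -/
theorem exists_full {β : Type*} [Fintype β] [DecidableEq β] (Λ : AddSubgroup (β → ℂ))
    {ι : Type*} [Finite ι] (s : ι → β → ℂ) (hs : ∀ i, s i ∈ Λ)
    (hspan : Submodule.span ℝ (Set.range s) = ⊤) :
    ∃ v : β ⊕ β → β → ℂ, (∀ i, v i ∈ Λ) ∧ (RM v).det ≠ 0 := by
  classical
  obtain ⟨b, hbS, hbspan, hbli⟩ := exists_linearIndependent ℝ (Set.range s)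
  rw [hspan] at hbspan
  let Bb : Module.Basis b ℝ (β → ℂ) := Module.Basis.mk hbli (by
    rw [Subtype.range_coe_subtype]
    exact hbspan.ge)
  have : Fintype b := FiniteDimensional.fintypeBasisIndex Bb
  have hcard : Fintype.card (β ⊕ β) = Fintype.card b := by
    have h1 := Module.finrank_eq_card_basis Bb
    rw [finrank_eq] at h1
    rw [Fintype.card_sum, ← h1]
    ring
  let e : β ⊕ β ≃ b := Fintype.equivOfCardEq hcard
  refine ⟨fun i => (e i : β → ℂ), fun i => ?_, ?_⟩
  · obtain ⟨j, hj⟩ := hbS (e i).2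
    show (e i : β → ℂ) ∈ Λ
    rw [← hj]
    exact hs j
  · have h1 : LinearIndependent ℝ (fun i => (e i : β → ℂ)) := hbli.comp _ e.injective
    have h2 := det_of_linInd _ (Equiv.refl _) h1
    simpa using h2

/-- the determinants of the power of a lattice -/
theorem prod_lattice {β Y : Type*} [Fintype β] [DecidableEq β] [Fintype Y] [DecidableEq Y]
    (Λ : AddSubgroup (β → ℂ)) (κ : ℝ) (hκ0 : 0 < κ)
    (hκ : ∀ v : β ⊕ β → β → ℂ, (∀ i, v i ∈ Λ) → (RM v).det ≠ 0 → κ ≤ |(RM v).det|)
    (v0 : β ⊕ β → β → ℂ) (hv0 : ∀ i, v0 i ∈ Λ) (hd0 : (RM v0).det ≠ 0)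
    (v : (β × Y) ⊕ (β × Y) → β × Y → ℂ) (hv : ∀ i y, (fun b => v i (b, y)) ∈ Λ)
    (hd : (RM v).det ≠ 0) : κ ^ Fintype.card Y ≤ |(RM v).det| := by
  obtain ⟨e, he1, he2, he3⟩ := exists_basis Λ κ hκ0 hκ v0 hv0 hd0
  let φ : (β ⊕ β) × Y ≃ (β × Y) ⊕ (β × Y) := Equiv.sumProdDistrib β β Y
  let e' : (β × Y) ⊕ (β × Y) → β × Y → ℂ := fun r p =>
    if p.2 = (φ.symm r).2 then e (φ.symm r).1 p.1 else 0
  have h1 : (RM e').submatrix φ φ = Matrix.blockDiagonal (fun _ : Y => RM e) := by
    ext ⟨k, y⟩ ⟨l, y'⟩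
    rw [Matrix.blockDiagonal_apply, Matrix.submatrix_apply]
    have hk : φ.symm (φ (k, y)) = (k, y) := Equiv.symm_apply_apply _ _
    rcases l with b | b
    · show ((if y' = (φ.symm (φ (k, y))).2 then e (φ.symm (φ (k, y))).1 b else 0 : ℂ)).re = _
      rw [hk]
      by_cases h : y = y'
      · rw [if_pos h.symm, if_pos h]
        rfl
      · rw [if_neg fun h' => h h'.symm, if_neg h, Complex.zero_re]
    · show ((if y' = (φ.symm (φ (k, y))).2 then e (φ.symm (φ (k, y))).1 b else 0 : ℂ)).im = _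
      rw [hk]
      by_cases h : y = y'
      · rw [if_pos h.symm, if_pos h]
        rfl
      · rw [if_neg fun h' => h h'.symm, if_neg h, Complex.zero_im]
  have h2 : (RM e').det = (RM e).det ^ Fintype.card Y := by
    rw [← Matrix.det_submatrix_equiv_self φ, h1, Matrix.det_blockDiagonal, Finset.prod_const,
      Finset.card_univ]
  have hli : LinearIndependent ℝ v := linInd_of_det v (Equiv.refl _) (by simpa using hd)
  have h3 := det_le_of_int e' v (Equiv.refl _) hli (fun r => by
    choose c hc using fun y => he3 _ (hv r y)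
    refine ⟨fun s => c (φ.symm s).2 (φ.symm s).1, fun p => ?_⟩
    rw [← Equiv.sum_comp φ, Fintype.sum_prod_type]
    have h4 : ∀ (k : β ⊕ β) (y : Y), ((c (φ.symm (φ (k, y))).2 (φ.symm (φ (k, y))).1 : ℤ) : ℂ) *
        e' (φ (k, y)) p = if p.2 = y then ((c y k : ℤ) : ℂ) * e k p.1 else 0 := by
      intro k y
      have hk : φ.symm (φ (k, y)) = (k, y) := Equiv.symm_apply_apply _ _
      show ((c (φ.symm (φ (k, y))).2 (φ.symm (φ (k, y))).1 : ℤ) : ℂ) *
        (if p.2 = (φ.symm (φ (k, y))).2 then e (φ.symm (φ (k, y))).1 p.1 else 0) = _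
      rw [hk]
      by_cases h : p.2 = y
      · simp only [h, if_true]
      · simp only [h, if_false, mul_zero]
    simp only [h4]
    have h5 : ∀ k, (∑ y, if p.2 = y then ((c y k : ℤ) : ℂ) * e k p.1 else 0) =
        ((c p.2 k : ℤ) : ℂ) * e k p.1 := by
      intro k
      rw [Finset.sum_ite_eq]
      simp
    rw [Finset.sum_congr rfl fun k _ => h5 k]
    exact hc p.2 p.1)
  rw [h2, abs_pow] at h3
  have h4 : (RM v).submatrix id (Equiv.refl ((β × Y) ⊕ (β × Y))) = RM v := by
    ext i j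
    rfl
  rw [h4] at h3
  refine le_trans ?_ h3
  exact pow_le_pow_left₀ hκ0.le (hκ e he1 he2) _

end Pool.Agent.J4.H50.CV
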