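import Pool.Agent.J4.H50.CV.L1

/-!
# The determinant inequality with a Gram determinant
-/

set_option autoImplicit false

namespace Pool.Agent.J4.H50.CV

open Pool.Agent.K4H13.CV

/-- The determinant of a Gram matrix in two blocks. -/
theorem gram_blocks {F K n : Type*} [Fintype F] [DecidableEq F] [Fintype K] [DecidableEq K]
    [Fintype n] (X₁ : Matrix F n ℝ) (X₂ : Matrix K n ℝ) (hP : (X₁ * X₁.transpose).det ≠ 0)
    (M : ℝ) (hM0 : 0 ≤ M) (hM : ∀ k, ∑ j, X₂ k j ^ 2 ≤ M) :
    (Matrix.fromBlocks (X₁ * X₁.transpose) (X₁ * X₂.transpose) (X₂ * X₁.transpose)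
      (X₂ * X₂.transpose)).det ≤
    (X₁ * X₁.transpose).det * (((Fintype.card K).factorial : ℝ) * M ^ Fintype.card K) := by
  set P := X₁ * X₁.transpose with hPdef
  have hu : IsUnit P.det := isUnit_iff_ne_zero.2 hP
  have : Invertible P := P.invertibleOfIsUnitDet hu
  have hinv : ⅟P = P⁻¹ := Matrix.invOf_eq_nonsing_inv P
  have hPt : P.transpose = P := by rw [hPdef, Matrix.transpose_mul, Matrix.transpose_transpose]
  rw [Matrix.det_fromBlocks₁₁, hinv]
  set W := X₂ * X₁.transpose * P⁻¹ with hW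
  have hWt : W.transpose = P⁻¹ * (X₁ * X₂.transpose) := by
    rw [hW, Matrix.transpose_mul, Matrix.transpose_mul, Matrix.transpose_transpose,
      Matrix.transpose_nonsing_inv, hPt]
  have hWP : W * P = X₂ * X₁.transpose := by
    rw [hW, Matrix.mul_assoc, Matrix.nonsing_inv_mul _ hu, Matrix.mul_one]
  set Z := X₂ - W * X₁ with hZ
  have hWQ : W * (X₁ * X₂.transpose) = (W * X₁) * (W * X₁).transpose := by
    rw [Matrix.transpose_mul, Matrix.mul_assoc W X₁, ← Matrix.mul_assoc X₁, ← hPdef,
      ← Matrix.mul_assoc W P, hWP, hWt, hW]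
    simp only [Matrix.mul_assoc]
  have hZZ : X₂ * X₂.transpose - W * (X₁ * X₂.transpose) = Z * Z.transpose := by
    rw [hZ, Matrix.transpose_sub, Matrix.sub_mul, Matrix.mul_sub, Matrix.mul_sub, ← hWQ,
      Matrix.transpose_mul, Matrix.mul_assoc W X₁ X₂.transpose]
    have : X₂ * (X₁.transpose * W.transpose) = W * (X₁ * X₂.transpose) := by
      rw [hWt, hW]
      simp only [Matrix.mul_assoc]
    rw [this]
    abel
  rw [hZZ]
  have hdiag : ∀ k, ∑ j, Z k j ^ 2 ≤ M := by
    intro k
    have h1 : (Z * Z.transpose) k k = ∑ j, Z k j ^ 2 := by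
      rw [Matrix.mul_apply]
      exact Finset.sum_congr rfl fun j _ => by rw [Matrix.transpose_apply]; ring
    have h2 : (X₂ * X₂.transpose) k k = ∑ j, X₂ k j ^ 2 := by
      rw [Matrix.mul_apply]
      exact Finset.sum_congr rfl fun j _ => by rw [Matrix.transpose_apply]; ring
    have h3 : ((W * X₁) * (W * X₁).transpose) k k = ∑ j, (W * X₁) k j ^ 2 := by
      rw [Matrix.mul_apply]
      exact Finset.sum_congr rfl fun j _ => by rw [Matrix.transpose_apply]; ring
    have h4 : 0 ≤ ∑ j, (W * X₁) k j ^ 2 := Finset.sum_nonneg fun j _ => sq_nonneg _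
    have h5 := congrFun (congrFun hZZ k) k
    rw [Matrix.sub_apply, hWQ, h1, h2, h3] at h5
    linarith [hM k]
  have hent : ∀ k l, |(Z * Z.transpose) k l| ≤ M := by
    intro k l
    rw [Matrix.mul_apply]
    have h1 : |∑ j, Z k j * Z.transpose j l| ≤ ∑ j, (Z k j ^ 2 + Z l j ^ 2) / 2 := by
      refine (Finset.abs_sum_le_sum_abs _ _).trans (Finset.sum_le_sum fun j _ => ?_)
      rw [Matrix.transpose_apply, abs_mul]
      nlinarith [sq_nonneg (|Z k j| - |Z l j|), sq_abs (Z k j), sq_abs (Z l j)]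
    rw [← Finset.sum_div, Finset.sum_add_distrib] at h1
    linarith [hdiag k, hdiag l]
  have hdet := Matrix.det_le (A := Z * Z.transpose)
    (abv := (IsAbsoluteValue.toAbsoluteValue (abs : ℝ → ℝ))) (x := M) hent
  rw [nsmul_eq_mul] at hdet
  have hdet' : (Z * Z.transpose).det ≤ ((Fintype.card K).factorial : ℝ) * M ^ Fintype.card K :=
    (le_abs_self _).trans hdet
  have hP0 : 0 ≤ P.det := by
    have := Matrix.posSemidef_self_mul_conjTranspose X₁
    rw [Matrix.conjTranspose_eq_transpose_of_trivial] at this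
    exact this.det_nonneg
  exact mul_le_mul_of_nonneg_left hdet' hP0

/-- **The determinant inequality.** -/
theorem core {β : Type*} [Fintype β] [DecidableEq β] (Λ : AddSubgroup (β → ℂ)) (κ : ℝ)
    (hκ0 : 0 ≤ κ)
    (hκ : ∀ v : β ⊕ β → β → ℂ, (∀ i, v i ∈ Λ) → (RM v).det ≠ 0 → κ ≤ |(RM v).det|)
    {ι : Type*} [Finite ι] (s : ι → β → ℂ) (hs : ∀ i, s i ∈ Λ) (H : ℝ) (hH : 1 ≤ H)
    (hsH : ∀ i f, ‖s i f‖ ≤ H) (hspan : Submodule.span ℝ (Set.range s) = ⊤)
    {F : Type*} [Fintype F] [DecidableEq F] (a : F → β → ℝ)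
    (ha : ∀ i, (fun b => ((a i b : ℝ) : ℂ)) ∈ Λ)
    (hdet : (Matrix.of a * (Matrix.of a).transpose).det ≠ 0) :
    κ ^ 2 ≤ (Matrix.of a * (Matrix.of a).transpose).det *
      (((2 * Fintype.card β : ℕ) : ℝ) ^ (2 * Fintype.card β) *
        (((2 * Fintype.card β + 1 : ℕ) : ℝ) * H ^ 2) ^ (2 * Fintype.card β)) := by
  classical
  obtain ⟨u, hudef⟩ : ∃ u : F → β → ℂ, u = fun i b => ((a i b : ℝ) : ℂ) := ⟨_, rfl⟩
  have hu' : ∀ i, u i ∈ Λ := fun i => by
    rw [hudef]
    exact ha i
  -- linear independence of `u`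
  have hli : LinearIndependent ℝ u := by
    rw [Fintype.linearIndependent_iff]
    intro g hg
    have h1 : Matrix.vecMul g (Matrix.of a) = 0 := by
      funext b
      have h2 := congrArg Complex.re (congrFun hg b)
      rw [Finset.sum_apply, Complex.re_sum] at h2
      simp only [Matrix.vecMul, dotProduct, Matrix.of_apply, Pi.zero_apply]
      rw [Pi.zero_apply, Complex.zero_re] at h2
      rw [← h2]
      refine Finset.sum_congr rfl fun i _ => ?_
      rw [hudef]
      simp
    have h2 : Matrix.vecMul g (Matrix.of a * (Matrix.of a).transpose) = 0 := by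
      rw [← Matrix.vecMul_vecMul, h1, Matrix.zero_vecMul]
    have h3 := Matrix.eq_zero_of_vecMul_eq_zero hdet h2
    exact fun i => congrFun h3 i
  -- extension to a basis
  have hliu : LinearIndepOn ℝ id (Set.range u) := hli.linearIndepOn_id
  obtain ⟨b, hb2, hb1, hb3, hb4⟩ := exists_linearIndepOn_id_extension hliu
    (Set.subset_union_left : Set.range u ⊆ Set.range u ∪ Set.range s)
  have hbtop : Submodule.span ℝ b = ⊤ := by
    rw [eq_top_iff, ← hspan]
    exact Submodule.span_le.2 ((Set.subset_union_right).trans hb3)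
  have hbfin : b.Finite := (Set.toFinite (Set.range u ∪ Set.range s)).subset hb2
  let K : Set (β → ℂ) := b \ Set.range u
  have hKfin : K.Finite := hbfin.subset Set.sdiff_subset
  have := hKfin.fintype
  let v : F ⊕ K → β → ℂ := Sum.elim u (fun k => (k : β → ℂ))
  have hvinj : Function.Injective v := by
    rintro (i | k) (i' | k') h
    · exact congrArg Sum.inl (hli.injective h)
    · exact absurd ⟨i, h⟩ k'.2.2
    · exact absurd ⟨i', h.symm⟩ k.2.2
    · exact congrArg Sum.inr (Subtype.ext h)
  have hvrange : Set.range v = b := by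
    rw [Set.Sum.elim_range, Subtype.range_coe]
    exact Set.union_sdiff_cancel hb1
  have hvli : LinearIndependent ℝ v := by
    have h1 : LinearIndepOn ℝ id (Set.range v) := by
      rw [hvrange]
      exact hb4
    exact (linearIndepOn_id_range_iff hvinj).1 h1
  have hcard : Fintype.card F + Fintype.card K = 2 * Fintype.card β := by
    have h1 := linearIndependent_iff_card_eq_finrank_span.1 hvli
    rw [Set.finrank, hvrange, hbtop, finrank_top, finrank_eq, Fintype.card_sum] at h1
    exact h1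
  have hKs : ∀ k : K, ∃ i, s i = k := by
    intro k
    rcases hb2 k.2.1 with h | h
    · exact absurd h k.2.2
    · exact h
  have hvΛ : ∀ r, v r ∈ Λ := by
    rintro (i | k)
    · exact hu' i
    · obtain ⟨i, hi⟩ := hKs k
      change (k : β → ℂ) ∈ Λ
      rw [← hi]
      exact hs i
  let σ : F ⊕ K ≃ β ⊕ β := Fintype.equivOfCardEq (by
    rw [Fintype.card_sum, Fintype.card_sum, hcard]
    ring)
  have hmain : κ ≤ |((RM v).submatrix id σ).det| := by
    have h1 : (RM v).submatrix id σ = (RM (v ∘ σ.symm)).submatrix σ σ := by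
      ext r c
      rw [Matrix.submatrix_apply, Matrix.submatrix_apply]
      unfold RM
      simp only [Matrix.of_apply, Function.comp_apply, Equiv.symm_apply_apply, id]
    have h2 := det_of_linInd v σ hvli
    rw [h1, Matrix.det_submatrix_equiv_self] at h2 ⊢
    exact hκ _ (fun i => hvΛ _) h2
  -- the Gram matrix
  set X₁ : Matrix F (β ⊕ β) ℝ := (RM v).submatrix Sum.inl id with hX₁
  set X₂ : Matrix K (β ⊕ β) ℝ := (RM v).submatrix Sum.inr id with hX₂
  have hP : X₁ * X₁.transpose = Matrix.of a * (Matrix.of a).transpose := by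
    ext i i'
    rw [Matrix.mul_apply, Matrix.mul_apply, Fintype.sum_sum_type]
    have h1 : ∀ f : β, X₁ i (Sum.inl f) = a i f := fun f => by
      show (u i f).re = a i f
      rw [hudef]
      simp
    have h1' : ∀ f : β, X₁ i' (Sum.inl f) = a i' f := fun f => by
      show (u i' f).re = a i' f
      rw [hudef]
      simp
    have h2 : ∀ f : β, X₁ i (Sum.inr f) = 0 := fun f => by
      show (u i f).im = 0
      rw [hudef]
      simp
    simp only [Matrix.transpose_apply, h1, h1', h2, zero_mul, Finset.sum_const_zero, add_zero,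
      Matrix.of_apply]
  have hG : (RM v).submatrix id σ * ((RM v).submatrix id σ).transpose =
      Matrix.fromBlocks (X₁ * X₁.transpose) (X₁ * X₂.transpose) (X₂ * X₁.transpose)
      (X₂ * X₂.transpose) := by
    have h0 : (RM v).submatrix id σ * ((RM v).submatrix id σ).transpose =
        RM v * (RM v).transpose := by
      ext r r'
      rw [Matrix.mul_apply, Matrix.mul_apply, ← Equiv.sum_comp σ]
      rfl
    rw [h0]
    ext r r'
    rcases r with i | k <;> rcases r' with i' | k'
    · rw [Matrix.fromBlocks_apply₁₁, Matrix.mul_apply, Matrix.mul_apply]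
      rfl
    · rw [Matrix.fromBlocks_apply₁₂, Matrix.mul_apply, Matrix.mul_apply]
      rfl
    · rw [Matrix.fromBlocks_apply₂₁, Matrix.mul_apply, Matrix.mul_apply]
      rfl
    · rw [Matrix.fromBlocks_apply₂₂, Matrix.mul_apply, Matrix.mul_apply]
      rfl
  set M : ℝ := ((2 * Fintype.card β + 1 : ℕ) : ℝ) * H ^ 2 with hM
  have hH2 : 1 ≤ H ^ 2 := one_le_pow₀ hH
  have hM1 : 1 ≤ M := by
    rw [hM]
    push_cast
    have : (0 : ℝ) ≤ Fintype.card β := Nat.cast_nonneg _
    nlinarith
  have hK2 : ∀ k, ∑ j, X₂ k j ^ 2 ≤ M := by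
    intro k
    obtain ⟨i, hi⟩ := hKs k
    have h1 : ∀ j : β ⊕ β, X₂ k j ^ 2 ≤ H ^ 2 := by
      intro j
      have h2 : |X₂ k j| ≤ H := by
        rcases j with f | f
        · show |((k : β → ℂ) f).re| ≤ H
          rw [← hi]
          exact (Complex.abs_re_le_norm _).trans (hsH i f)
        · show |((k : β → ℂ) f).im| ≤ H
          rw [← hi]
          exact (Complex.abs_im_le_norm _).trans (hsH i f)
      rw [← sq_abs]
      exact pow_le_pow_left₀ (abs_nonneg _) h2 2
    calc ∑ j, X₂ k j ^ 2 ≤ ∑ _j : β ⊕ β, H ^ 2 := Finset.sum_le_sum fun j _ => h1 j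
      _ = ((2 * Fintype.card β : ℕ) : ℝ) * H ^ 2 := by
        rw [Finset.sum_const, Finset.card_univ, Fintype.card_sum, nsmul_eq_mul]
        push_cast
        ring
      _ ≤ M := by
        rw [hM]
        refine mul_le_mul_of_nonneg_right ?_ (by positivity)
        push_cast
        linarith
  have h5 := gram_blocks X₁ X₂ (by rw [hP]; exact hdet) M (by linarith) hK2
  rw [← hG, Matrix.det_mul, Matrix.det_transpose, hP] at h5
  have h6 : κ ^ 2 ≤ ((RM v).submatrix id σ).det * ((RM v).submatrix id σ).det := by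
    rw [← sq, ← sq_abs ((RM v).submatrix id σ).det]
    exact pow_le_pow_left₀ hκ0 hmain 2
  have hD0 : 0 ≤ (Matrix.of a * (Matrix.of a).transpose).det := by
    have := Matrix.posSemidef_self_mul_conjTranspose (Matrix.of a)
    rw [Matrix.conjTranspose_eq_transpose_of_trivial] at this
    exact this.det_nonneg
  refine h6.trans (h5.trans (mul_le_mul_of_nonneg_left ?_ hD0))
  have hKc : Fintype.card K ≤ 2 * Fintype.card β := by omega
  have h7 : ((Fintype.card K).factorial : ℝ) ≤
      ((2 * Fintype.card β : ℕ) : ℝ) ^ (2 * Fintype.card β) := by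
    have h8 : (Fintype.card K).factorial ≤ (2 * Fintype.card β) ^ (2 * Fintype.card β) :=
      (Nat.factorial_le hKc).trans (Nat.factorial_le_pow _)
    exact_mod_cast h8
  refine mul_le_mul h7 (pow_le_pow_right₀ hM1 hKc) (by positivity) (by positivity)

end Pool.Agent.J4.H50.CV
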