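import Pool.Agent.J4.H50.CV.L2

/-!
# Gram determinants and characters of a finite abelian group
-/

set_option autoImplicit false

namespace Pool.Agent.J4.H50.CV

open Pool.Agent.K4H13.CV

/-- `W` is a perfect pairing of `X` with the finite abelian group `Y` -/
structure Pair (X Y : Type) [Fintype X] [DecidableEq X] [Fintype Y] [CommGroup Y]
    (W : X → Y → ℂ) : Prop where
  mul : ∀ x y y', W x (y * y') = W x y * W x y'
  norm : ∀ x y, ‖W x y‖ = 1
  orth : ∀ x x', ∑ y, W x y * starRingEnd ℂ (W x' y) = if x = x' then (Fintype.card Y : ℂ) else 0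
  card : Fintype.card X = Fintype.card Y

variable {X Y : Type} [Fintype X] [DecidableEq X] [Fintype Y] [DecidableEq Y] [CommGroup Y]
  {W : X → Y → ℂ}

lemma Pair.n_pos (_ : Pair X Y W) : (0 : ℝ) < Fintype.card Y := by
  have : 0 < Fintype.card Y := Fintype.card_pos_iff.2 ⟨1⟩
  exact_mod_cast this

lemma Pair.col (hW : Pair X Y W) (y y' : Y) :
    ∑ x, W x y * starRingEnd ℂ (W x y') = if y = y' then (Fintype.card Y : ℂ) else 0 := by
  have hn := hW.n_pos
  have hnc : (Fintype.card Y : ℂ) ≠ 0 := by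
    have := hn.ne'
    exact_mod_cast this
  let e : X ≃ Y := Fintype.equivOfCardEq hW.card
  let A : Matrix Y Y ℂ := Matrix.of fun i y => W (e.symm i) y
  have h1 : A * A.conjTranspose = (Fintype.card Y : ℂ) • (1 : Matrix Y Y ℂ) := by
    ext i j
    rw [Matrix.mul_apply, Matrix.smul_apply, Matrix.one_apply]
    simp only [Matrix.conjTranspose_apply, A, Matrix.of_apply]
    have := hW.orth (e.symm i) (e.symm j)
    rw [show (∑ y, W (e.symm i) y * star (W (e.symm j) y)) =
      ∑ y, W (e.symm i) y * starRingEnd ℂ (W (e.symm j) y) from rfl, this]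
    by_cases h : i = j
    · rw [if_pos (by rw [h]), if_pos h, smul_eq_mul, mul_one]
    · rw [if_neg fun h' => h (e.symm.injective h'), if_neg h, smul_zero]
  have h2 : A * ((Fintype.card Y : ℂ)⁻¹ • A.conjTranspose) = 1 := by
    rw [Matrix.mul_smul, h1, smul_smul, inv_mul_cancel₀ hnc, one_smul]
  have h3 := mul_eq_one_comm.1 h2
  rw [Matrix.smul_mul] at h3
  have h4 : A.conjTranspose * A = (Fintype.card Y : ℂ) • (1 : Matrix Y Y ℂ) := by
    rw [← h3, smul_smul, mul_inv_cancel₀ hnc, one_smul]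
  have h5 := congrFun (congrFun h4 y') y
  rw [Matrix.mul_apply, Matrix.smul_apply, Matrix.one_apply] at h5
  rw [← Equiv.sum_comp e.symm]
  have h6 : ∑ i, W (e.symm i) y * starRingEnd ℂ (W (e.symm i) y') =
      ∑ j, A.conjTranspose y' j * A j y := Finset.sum_congr rfl fun i _ => by
    rw [Matrix.conjTranspose_apply]
    simp only [A, Matrix.of_apply]
    rw [mul_comm]
    rfl
  rw [h6, h5]
  by_cases h : y = y'
  · rw [if_pos h, if_pos h.symm, smul_eq_mul, mul_one]
  · rw [if_neg h, if_neg fun h' => h h'.symm, smul_zero]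

lemma Pair.parseval (hW : Pair X Y W) (a a' : Y → ℂ) :
    ∑ x, (∑ y, W x y * a y) * starRingEnd ℂ (∑ y, W x y * a' y) =
      (Fintype.card Y : ℂ) * ∑ y, a y * starRingEnd ℂ (a' y) := by
  have h1 : ∀ x, (∑ y, W x y * a y) * starRingEnd ℂ (∑ y, W x y * a' y) =
      ∑ y, ∑ y', (W x y * starRingEnd ℂ (W x y')) * (a y * starRingEnd ℂ (a' y')) := by
    intro x
    rw [map_sum, Finset.sum_mul_sum]
    refine Finset.sum_congr rfl fun y _ => Finset.sum_congr rfl fun y' _ => ?_
    rw [map_mul]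
    ring
  simp only [h1]
  rw [Finset.sum_comm, Finset.mul_sum]
  refine Finset.sum_congr rfl fun y _ => ?_
  rw [Finset.sum_comm]
  have h2 : ∀ y', ∑ x, (W x y * starRingEnd ℂ (W x y')) * (a y * starRingEnd ℂ (a' y')) =
      if y = y' then (Fintype.card Y : ℂ) * (a y * starRingEnd ℂ (a' y')) else 0 := by
    intro y'
    rw [← Finset.sum_mul, hW.col]
    split_ifs
    · rfl
    · rw [zero_mul]
  simp only [h2]
  rw [Finset.sum_ite_eq]
  simp

variable {B : Type*} [Fintype B] [DecidableEq B]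

/-- the Gram determinant in terms of the Fourier coefficients -/
theorem gram_fourier (hW : Pair X Y W) (F : Finset (B × X)) (a : F → B × Y → ℝ)
    (C : F → B × X → ℂ) (S : B × X → ℂ) (hS : ∀ p, p ∉ F → S p = 0)
    (ha : ∀ i p, ∑ y, W p.2 y * ((a i (p.1, y) : ℝ) : ℂ) = C i p * S p) :
    (Fintype.card Y : ℝ) ^ (Fintype.card F) * (Matrix.of a * (Matrix.of a).transpose).det =
      ‖(Matrix.of fun i j : F => C i j).det‖ ^ 2 * ∏ p ∈ F, ‖S p‖ ^ 2 := by
  classical
  let A' : Matrix F F ℂ := Matrix.of fun i j => C i j * S j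
  have h1 : A' * A'.conjTranspose =
      (Fintype.card Y : ℂ) • (Matrix.of a * (Matrix.of a).transpose).map (fun x : ℝ => (x : ℂ)) := by
    ext i j
    rw [Matrix.mul_apply, Matrix.smul_apply, Matrix.map_apply, Matrix.mul_apply, smul_eq_mul]
    have e1 : ∑ p : F, A' i p * A'.conjTranspose p j =
        ∑ p : B × X, (∑ y, W p.2 y * ((a i (p.1, y) : ℝ) : ℂ)) *
          starRingEnd ℂ (∑ y, W p.2 y * ((a j (p.1, y) : ℝ) : ℂ)) := by
      have e2 : ∀ p : F, A' i p * A'.conjTranspose p j =
          (fun p : B × X => (C i p * S p) * starRingEnd ℂ (C j p * S p)) p := fun p => rfl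
      rw [Finset.sum_congr rfl fun p _ => e2 p,
        Finset.sum_coe_sort F (fun p : B × X => (C i p * S p) * starRingEnd ℂ (C j p * S p))]
      rw [Finset.sum_subset (Finset.subset_univ F) (fun p _ hp => by rw [hS p hp]; simp)]
      exact Finset.sum_congr rfl fun p _ => by rw [ha, ha]
    rw [e1, Fintype.sum_prod_type]
    simp only
    have e3 : ∀ f : B, ∑ x, (∑ y, W x y * ((a i (f, y) : ℝ) : ℂ)) *
        starRingEnd ℂ (∑ y, W x y * ((a j (f, y) : ℝ) : ℂ)) =
        (Fintype.card Y : ℂ) * ∑ y, ((a i (f, y) : ℝ) : ℂ) * ((a j (f, y) : ℝ) : ℂ) := by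
      intro f
      rw [hW.parseval]
      simp only [Complex.conj_ofReal]
    rw [Finset.sum_congr rfl fun f _ => e3 f, ← Finset.mul_sum]
    congr 1
    rw [Fintype.sum_prod_type]
    push_cast
    rfl
  have h2 : A' = (Matrix.of fun i j : F => C i j) * Matrix.diagonal (fun j : F => S j) := by
    ext i j
    rw [Matrix.mul_diagonal]
    rfl
  have h3 := congrArg Matrix.det h1
  rw [Matrix.det_mul, Matrix.det_conjTranspose, Matrix.det_smul] at h3
  have h4 : ((Matrix.of a * (Matrix.of a).transpose).map (fun x : ℝ => (x : ℂ))).det =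
      (((Matrix.of a * (Matrix.of a).transpose).det : ℝ) : ℂ) :=
    (RingHom.map_det Complex.ofRealHom _).symm
  have h5 : A'.det * star A'.det = ((‖A'.det‖ ^ 2 : ℝ) : ℂ) := by
    rw [show star A'.det = starRingEnd ℂ A'.det from rfl, Complex.mul_conj,
      Complex.normSq_eq_norm_sq]
  rw [h4, h5] at h3
  have h6 : ‖A'.det‖ ^ 2 = ‖(Matrix.of fun i j : F => C i j).det‖ ^ 2 * ∏ p ∈ F, ‖S p‖ ^ 2 := by
    rw [h2, Matrix.det_mul, Matrix.det_diagonal, norm_mul, mul_pow, norm_prod, ← Finset.prod_pow,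
      Finset.prod_coe_sort F (fun p => ‖S p‖ ^ 2)]
  rw [← h6]
  have h7 : ((‖A'.det‖ ^ 2 : ℝ) : ℂ) =
      (((Fintype.card Y : ℝ) ^ (Fintype.card F) *
        (Matrix.of a * (Matrix.of a).transpose).det : ℝ) : ℂ) := by
    rw [h3]
    push_cast
    rfl
  exact_mod_cast h7.symm

/-- selection of rows with nonzero determinant -/
theorem exists_detK {𝕜 : Type*} [Field 𝕜] {F ι : Type*} [Fintype F] [DecidableEq F] {S : Set ι}
    (c : ι → F → 𝕜) (h : ∀ w : F → 𝕜, (∀ n ∈ S, ∑ f, w f * c n f = 0) → w = 0) :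
    ∃ n : F → ι, (∀ i, n i ∈ S) ∧ (Matrix.of fun i j => c (n i) j).det ≠ 0 := by
  classical
  -- the vectors `c n`, `n ∈ S`, span
  have hspan : Submodule.span 𝕜 (c '' S) = ⊤ := by
    by_contra hne
    obtain ⟨φ, hφ0, hφ⟩ := Submodule.exists_dual_map_eq_bot_of_lt_top (lt_top_iff_ne_top.2 hne)
      inferInstance
    apply hφ0
    have hw : (fun f => φ (Pi.single f 1)) = 0 := by
      apply h
      intro n hn
      have h1 : φ (c n) = 0 := by
        have h2 : φ (c n) ∈ Submodule.map φ (Submodule.span 𝕜 (c '' S)) :=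
          Submodule.mem_map_of_mem (Submodule.subset_span ⟨n, hn, rfl⟩)
        rw [hφ] at h2
        exact (Submodule.mem_bot 𝕜).1 h2
      have h3 : c n = ∑ f, c n f • (Pi.single f (1 : 𝕜) : F → 𝕜) := by
        ext g
        simp [Finset.sum_apply, Pi.single_apply]
      rw [h3, map_sum] at h1
      simp only [map_smul, smul_eq_mul] at h1
      rw [← h1]
      apply Finset.sum_congr rfl
      intro f _
      ring
    apply LinearMap.pi_ext'
    intro f
    ext
    simpa using congrFun hw f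
  obtain ⟨b, hbS, hbspan, hbli⟩ := exists_linearIndependent 𝕜 (c '' S)
  rw [hspan] at hbspan
  let B : Module.Basis b 𝕜 (F → 𝕜) := Module.Basis.mk hbli (by
    rw [Subtype.range_coe_subtype]
    exact hbspan.ge)
  have : Fintype b := FiniteDimensional.fintypeBasisIndex B
  have hcard : Fintype.card F = Fintype.card b := by
    have h1 := Module.finrank_eq_card_basis B
    rw [Module.finrank_fintype_fun_eq_card] at h1
    exact h1
  let e : F ≃ b := Fintype.equivOfCardEq hcard
  have hex : ∀ i : F, ∃ n ∈ S, c n = (e i : F → 𝕜) := fun i => hbS (e i).2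
  choose n hnS hn using hex
  refine ⟨n, hnS, ?_⟩
  have hli : LinearIndependent 𝕜 (fun i : F => c (n i)) := by
    have h1 : (fun i : F => c (n i)) = (fun x : b => (x : F → 𝕜)) ∘ e := by
      funext i
      exact hn i
    rw [h1]
    exact hbli.comp _ e.injective
  have hu : IsUnit (Matrix.of fun i j => c (n i) j) :=
    Matrix.linearIndependent_rows_iff_isUnit.1 hli
  exact ((Matrix.isUnit_iff_isUnit_det _).1 hu).ne_zero

end Pool.Agent.J4.H50.CV
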