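import Pool.Agent.J4.H50.CV.A3
import Pool.Agent.J4.H50.CV.L3
import Pool.Agent.K4H13.CV.Hyp

/-!
# The product of the nonzero values of the components of a family of linear forms which is indexed
by a finite abelian group
-/

set_option autoImplicit false

open Complex Filter Topology Set UpperHalfPlane MatrixGroups CongruenceSubgroup

namespace Pool.Agent.J4.H50.CV

open Pool.Agent.TH940 (prim prim_deriv Fr prim_fricke Pers prim_near prim_line exp_norm)
open Pool.Agent.Y18.BSD
open Pool.Agent.K4H13.CV
open W388.LV (SF bf pet IsNewBasis)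

variable {N : ℕ} [NeZero N]

/-- the real vector of an integral linear form -/
noncomputable def Rr {B : Finset (Cf2 N)} (ε : B → ℝ) (b : Bool) (δ : ℝ) (V : B → ℂ) (f : B) : ℝ :=
  ((co f.1 2).re - 3) * (2 * pt b (V f)) * (1 + δ * ε f)

/-- the lattice -/
theorem lat (hN : N.Prime) (h2 : N ≠ 2) {B : Finset (Cf2 N)}
    (hB : IsNewBasis N 2 B) (hg : 1 ≤ B.card) (b : Bool) (δ : ℝ)
    (hδ : δ = 1 ∨ δ = -1) {ε : B → ℝ} (hε : ∀ f : B, W388.IsNewf N 2 f.1 (ε f)) :
    ∃ (Λ : AddSubgroup (B → ℂ)) (s : Fin (N + 2) → B → ℂ),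
      (∀ v : B ⊕ B → B → ℂ, (∀ i, v i ∈ Λ) → (RM v).det ≠ 0 →
        1 / (N : ℝ) ^ (296 * B.card) ≤ |(RM v).det|) ∧
      (∀ i, s i ∈ Λ) ∧ (∀ i f, ‖s i f‖ ≤ 8 * (N : ℝ) ^ 4) ∧
      Submodule.span ℝ (Set.range s) = ⊤ ∧
      ∀ V ∈ FF B, ∀ n : ℕ, n.Coprime N →
        (fun f : B => (((co f.1 n).re * Rr ε b δ V f : ℝ) : ℂ)) ∈ Λ := by
  have hN3 := three_le hN h2
  have hN0 : (0 : ℝ) < N := by linarith
  have hN1 : (1 : ℝ) ≤ N := by linarith
  have h2N : ¬ 2 ∣ N := fun h => h2 ((Nat.prime_dvd_prime_iff_eq Nat.prime_two hN).1 h).symm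
  have hB' : ∀ f ∈ B, ∃ ε : ℝ, W388.IsNewf N 2 f ε := fun f hf => hB.newf f hf
  obtain ⟨δ', hδ1, hδ2⟩ := gen N hN
  have hsb : ∀ i f, ‖pv B (δ' i) f‖ ≤ 8 * (N : ℝ) ^ 4 := by
    intro i f
    have e1 := per_bd f.1 (coef N hN f.1 (ε f) (hε f)) (δ' i) ((N : ℝ) ^ 2) (one_le_pow₀ hN1)
      (by
        have := hδ1 i
        rw [← Int.cast_abs]
        exact_mod_cast this)
    refine e1.trans (le_of_eq ?_)
    ring
  -- the vectors
  have hvec : ∀ V ∈ FF B, ∀ n : ℕ, n.Coprime N → (fun f : B => co f.1 n *
      ((if b then (1 : ℂ) else Complex.I) * ((Rr ε b δ V f : ℝ) : ℂ))) ∈ LL B := by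
    intro V hV n hn
    set U : B → ℂ := fun f => V f + (if b then (1 : ℂ) else -1) * starRingEnd ℂ (V f) with hU
    have hUF : U ∈ FF B := by
      have h1 := FF_conj hB' hV
      cases b
      · refine (congrArg (· ∈ FF B) ?_).mp ((FF B).sub_mem hV h1)
        funext f
        simp only [hU, Pi.sub_apply, Bool.false_eq_true, if_false]
        ring
      · refine (congrArg (· ∈ FF B) ?_).mp ((FF B).add_mem hV h1)
        funext f
        simp only [hU, Pi.add_apply, if_true]
        ring
    have hWF : (fun f => U f + (δ : ℂ) * ((ε f : ℂ) * U f)) ∈ FF B := by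
      have h1 := FF_star hε hUF
      rcases hδ with h | h
      · refine (congrArg (· ∈ FF B) ?_).mp ((FF B).add_mem hUF h1)
        funext f
        rw [h]
        simp only [Pi.add_apply]
        push_cast
        ring
      · refine (congrArg (· ∈ FF B) ?_).mp ((FF B).sub_mem hUF h1)
        funext f
        rw [h]
        simp only [Pi.sub_apply]
        push_cast
        ring
    refine (congrArg (· ∈ LL B) ?_).mp (FF_good hB' h2N hWF n hn)
    funext f
    have e1 := co_real (hε f) 2
    have e2 := pt_eq b (V f)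
    congr 1
    rw [hU]
    unfold Rr
    simp only
    rw [← e2]
    conv_lhs => rw [e1]
    push_cast
    ring
  cases b with
  | true =>
    refine ⟨LL B, fun i => pv B (δ' i), fun v hv hd => kappa hyp hN h2 hB hg v hv hd,
      fun i => pv_mem B _, hsb, span_short hyp hN h2 hB δ' hδ2, fun V hV n hn => ?_⟩
    refine (congrArg (· ∈ LL B) ?_).mp (hvec V hV n hn)
    funext f
    simp only [if_true, one_mul]
    rw [Complex.ofReal_mul (co f.1 n).re, ← co_real (hε f)]
  | false =>
    let m : (B → ℂ) →+ (B → ℂ) :=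
      { toFun := fun v f => Complex.I * v f
        map_zero' := by funext f; simp
        map_add' := fun v w => by funext f; simp [mul_add] }
    refine ⟨(LL B).comap m, fun i f => -Complex.I * pv B (δ' i) f, fun v hv hd => ?_,
      fun i => ?_, fun i f => ?_, ?_, fun V hV n hn => ?_⟩
    · rw [← det_rot v]
      refine kappa hyp hN h2 hB hg _ (fun i => hv i) ?_
      intro h0
      apply hd
      have := det_rot v
      rw [h0, abs_zero] at this
      exact abs_eq_zero.1 this.symm
    · show m (fun f => -Complex.I * pv B (δ' i) f) ∈ LL B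
      refine (congrArg (· ∈ LL B) ?_).mp (pv_mem B (δ' i))
      funext f
      show _ = Complex.I * (-Complex.I * pv B (δ' i) f)
      linear_combination (pv B (δ' i) f) * Complex.I_mul_I
    · rw [norm_mul, norm_neg, Complex.norm_I, one_mul]
      exact hsb i f
    · let L : (B → ℂ) →ₗ[ℝ] (B → ℂ) :=
        { toFun := fun v f => -Complex.I * v f
          map_add' := fun v w => by funext f; simp [mul_add]
          map_smul' := fun c v => by
            funext f
            simp only [Pi.smul_apply, Complex.real_smul, RingHom.id_apply]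
            ring }
      have hL : Function.Surjective L := by
        intro v
        refine ⟨fun f => Complex.I * v f, ?_⟩
        funext f
        show -Complex.I * (Complex.I * v f) = v f
        linear_combination (-(v f)) * Complex.I_mul_I
      have h3 := span_short hyp hN h2 hB δ' hδ2
      have h4 : (Set.range fun i => (fun f => -Complex.I * pv B (δ' i) f : B → ℂ)) =
          L '' (Set.range fun i => pv B (δ' i)) := by
        rw [← Set.range_comp]
        rfl
      rw [h4, ← Submodule.map_span, h3, Submodule.map_top, LinearMap.range_eq_top]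
      exact hL
    · show m (fun f : B => (((co f.1 n).re * Rr ε false δ V f : ℝ) : ℂ)) ∈ LL B
      refine (congrArg (· ∈ LL B) ?_).mp (hvec V hV n hn)
      funext f
      show _ = Complex.I * (((co f.1 n).re * Rr ε false δ V f : ℝ) : ℂ)
      simp only [Bool.false_eq_true, if_false]
      rw [Complex.ofReal_mul (co f.1 n).re, ← co_real (hε f)]
      ring

/-- the power of a lattice -/
def pw {β Y : Type*} (Λ : AddSubgroup (β → ℂ)) : AddSubgroup (β × Y → ℂ) where
  carrier := {w | ∀ y, (fun b => w (b, y)) ∈ Λ}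
  zero_mem' := fun _ => Λ.zero_mem
  add_mem' := fun h1 h2 y => Λ.add_mem (h1 y) (h2 y)
  neg_mem' := fun h y => Λ.neg_mem (h y)

/-- the short vectors of the power span -/
theorem pw_span {β Y ι : Type*} [Fintype Y] [DecidableEq Y] (s : ι → β → ℂ)
    (hspan : Submodule.span ℝ (Set.range s) = ⊤) :
    Submodule.span ℝ (Set.range fun (i : ι × Y) (p : β × Y) => if p.2 = i.2 then s i.1 p.1 else 0) =
      ⊤ := by
  rw [eq_top_iff]
  intro w _
  let L : Y → (β → ℂ) →ₗ[ℝ] (β × Y → ℂ) := fun y0 =>
    { toFun := fun v p => if p.2 = y0 then v p.1 else 0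
      map_add' := fun v w => by funext p; simp only [Pi.add_apply]; split_ifs <;> simp
      map_smul' := fun c v => by
        funext p
        simp only [Pi.smul_apply, RingHom.id_apply]
        split_ifs <;> simp }
  have h1 : ∀ y0 (v : β → ℂ), L y0 v ∈ Submodule.span ℝ
      (Set.range fun (i : ι × Y) (p : β × Y) => if p.2 = i.2 then s i.1 p.1 else 0) := by
    intro y0 v
    have h2 : v ∈ Submodule.span ℝ (Set.range s) := by rw [hspan]; trivial
    have h3 : L y0 v ∈ Submodule.map (L y0) (Submodule.span ℝ (Set.range s)) :=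
      Submodule.mem_map_of_mem h2
    rw [Submodule.map_span] at h3
    refine Submodule.span_mono ?_ h3
    rintro _ ⟨_, ⟨i, rfl⟩, rfl⟩
    exact ⟨(i, y0), rfl⟩
  have h2 : w = ∑ y0, L y0 (fun b => w (b, y0)) := by
    funext p
    rw [Finset.sum_apply]
    show w p = ∑ y0, if p.2 = y0 then w (p.1, y0) else 0
    rw [Finset.sum_ite_eq]
    simp
  rw [h2]
  exact Submodule.sum_mem _ fun y0 _ => h1 y0 _

end Pool.Agent.J4.H50.CV
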