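import Pool.Agent.J4.H50.CV.M1

/-!
# The master theorem
-/

set_option autoImplicit false

open Complex Filter Topology Set UpperHalfPlane MatrixGroups CongruenceSubgroup

namespace Pool.Agent.J4.H50.CV

open Pool.Agent.TH940 (prim prim_deriv Fr prim_fricke Pers prim_near prim_line exp_norm)
open Pool.Agent.Y18.BSD
open Pool.Agent.K4H13.CV
open W388.LV (SF bf pet IsNewBasis)

variable {N : ℕ} [NeZero N]
variable {X Y : Type} [Fintype X] [DecidableEq X] [Fintype Y] [DecidableEq Y] [CommGroup Y]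
  {W : X → Y → ℂ}

open Classical in
/-- independence of the products of the Hecke eigenvalues and the characters -/
theorem indepW (hN : N.Prime) {B : Finset (Cf2 N)} (hB : IsNewBasis N 2 B) (hW : Pair X Y W)
    (δ : ℝ) (F : Finset (B × X)) (hF : ∀ p ∈ F, W388.IsNewf N 2 p.1.1 δ) (w : F → ℂ)
    (hw : ∀ q ∈ {q : ℕ × Y | q.1 ≤ 100 * N ^ 2 ∧ q.1.Coprime N},
      ∑ p : F, w p * ((((co p.1.1.1 q.1).re : ℝ) : ℂ) * W p.1.2 q.2⁻¹) = 0) : w = 0 := by
  have hn := hW.n_pos
  have hnc : (Fintype.card Y : ℂ) ≠ 0 := by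
    have := hn.ne'
    exact_mod_cast this
  -- extension by zero
  let w' : B × X → ℂ := fun p => if h : p ∈ F then w ⟨p, h⟩ else 0
  have hsum : ∀ (g : B × X → ℂ), ∑ p : F, w p * g p = ∑ f : B, ∑ x : X, w' (f, x) * g (f, x) := by
    intro g
    rw [← Fintype.sum_prod_type (fun p : B × X => w' p * g p)]
    have e2 : ∀ p : F, w p * g p = (fun p : B × X => w' p * g p) p := fun p => by
      show _ = w' p * g p
      simp only [w', p.2, dif_pos]
    rw [Finset.sum_congr rfl fun p _ => e2 p, Finset.sum_coe_sort F (fun p : B × X => w' p * g p)]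
    refine Finset.sum_subset (Finset.subset_univ F) fun p _ hp => ?_
    simp only [w', hp, dif_neg, not_false_eq_true, zero_mul]
  -- separation of the characters
  have hsep : ∀ n : ℕ, n ≤ 100 * N ^ 2 → n.Coprime N → ∀ x0 : X,
      ∑ f : B, w' (f, x0) * (((co f.1 n).re : ℝ) : ℂ) = 0 := by
    intro n h1 h2 x0
    have h3 : ∀ h : Y, ∑ x : X, (∑ f : B, w' (f, x) * (((co f.1 n).re : ℝ) : ℂ)) * W x h = 0 := by
      intro h
      have h4 := hw (n, h⁻¹) ⟨h1, h2⟩
      simp only [inv_inv] at h4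
      rw [hsum (fun p => (((co p.1.1 n).re : ℝ) : ℂ) * W p.2 h), Finset.sum_comm] at h4
      rw [← h4]
      refine Finset.sum_congr rfl fun x _ => ?_
      rw [Finset.sum_mul]
      exact Finset.sum_congr rfl fun f _ => by ring
    have h5 : ∑ h : Y, (∑ x : X, (∑ f : B, w' (f, x) * (((co f.1 n).re : ℝ) : ℂ)) * W x h) *
        starRingEnd ℂ (W x0 h) = 0 := by
      refine Finset.sum_eq_zero fun h _ => ?_
      rw [h3 h, zero_mul]
    have h6 : ∑ h : Y, (∑ x : X, (∑ f : B, w' (f, x) * (((co f.1 n).re : ℝ) : ℂ)) * W x h) *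
        starRingEnd ℂ (W x0 h) =
        ∑ x : X, (∑ f : B, w' (f, x) * (((co f.1 n).re : ℝ) : ℂ)) *
          ∑ h : Y, W x h * starRingEnd ℂ (W x0 h) := by
      simp only [Finset.sum_mul _ _ (starRingEnd ℂ _)]
      rw [Finset.sum_comm]
      refine Finset.sum_congr rfl fun x _ => ?_
      rw [Finset.mul_sum]
      exact Finset.sum_congr rfl fun h _ => by ring
    rw [h6] at h5
    have h7 : ∀ x, (∑ f : B, w' (f, x) * (((co f.1 n).re : ℝ) : ℂ)) *
          ∑ h : Y, W x h * starRingEnd ℂ (W x0 h) =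
        if x = x0 then (∑ f : B, w' (f, x) * (((co f.1 n).re : ℝ) : ℂ)) * (Fintype.card Y : ℂ)
          else 0 := by
      intro x
      rw [hW.orth]
      split_ifs
      · rfl
      · rw [mul_zero]
    simp only [h7] at h5
    rw [Finset.sum_ite_eq' Finset.univ x0] at h5
    simp only [Finset.mem_univ, if_true] at h5
    exact (mul_eq_zero.1 h5).resolve_right hnc
  -- every component is zero
  have hzero : ∀ (x0 : X) (f0 : B), w' (f0, x0) = 0 := by
    intro x0 f0
    by_cases hf0 : (f0, x0) ∈ F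
    · let Fx : Finset B := (Finset.univ : Finset B).filter fun f => (f, x0) ∈ F
      have hFx : ∀ f ∈ Fx, W388.IsNewf N 2 f.1 δ := fun f hf => hF _ (Finset.mem_filter.1 hf).2
      have hout : ∀ f, f ∉ Fx → w' (f, x0) = 0 := by
        intro f hf
        have : (f, x0) ∉ F := fun h => hf (Finset.mem_filter.2 ⟨Finset.mem_univ _, h⟩)
        simp only [w', this, dif_neg, not_false_eq_true]
      have hs : ∀ n : ℕ, n ≤ 100 * N ^ 2 → n.Coprime N →
          ∑ f : Fx, w' (f.1, x0) * (((co f.1.1 n).re : ℝ) : ℂ) = 0 := by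
        intro n h1 h2
        rw [← hsep n h1 h2 x0,
          Finset.sum_coe_sort Fx (fun f : B => w' (f, x0) * (((co f.1 n).re : ℝ) : ℂ))]
        refine Finset.sum_subset (Finset.subset_univ _) fun f _ hf => ?_
        rw [hout f hf, zero_mul]
      have hr := indep' hN hB Fx δ hFx (fun f => (w' (f.1, x0)).re) (fun n hn => by
        have := congrArg Complex.re (hs n hn.1 hn.2)
        rw [Complex.re_sum, Complex.zero_re] at this
        rw [← this]
        exact Finset.sum_congr rfl fun f _ => by rw [Complex.re_mul_ofReal])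
      have hi := indep' hN hB Fx δ hFx (fun f => (w' (f.1, x0)).im) (fun n hn => by
        have := congrArg Complex.im (hs n hn.1 hn.2)
        rw [Complex.im_sum, Complex.zero_im] at this
        rw [← this]
        exact Finset.sum_congr rfl fun f _ => by rw [Complex.im_mul_ofReal])
      have hm : f0 ∈ Fx := Finset.mem_filter.2 ⟨Finset.mem_univ _, hf0⟩
      exact Complex.ext (congrFun hr ⟨f0, hm⟩) (congrFun hi ⟨f0, hm⟩)
    · simp only [w', hf0, dif_neg, not_false_eq_true]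
  funext p
  have h := hzero p.1.2 p.1.1
  have h2 : w' (p.1.1, p.1.2) = w p := by
    have : (p.1.1, p.1.2) = p.1 := rfl
    simp only [w', this, p.2, dif_pos]
  rw [h2] at h
  exact h

lemma num_step {D : ℝ} (hD : 0 ≤ D) (M : ℕ) {G E2 E3 c P k : ℝ} (hE2 : 0 ≤ E2) (hE3 : 0 ≤ E3)
    (hc : 0 ≤ c) (h1 : k ≤ G * (E2 * E3)) (h2 : G ≤ c ^ 2 * P ^ 2) (h3 : c ≤ D ^ (17 * M))
    (h4 : E2 ≤ D ^ (2 * M)) (h5 : E3 ≤ D ^ (28 * M)) : k ≤ (D ^ (32 * M) * P) ^ 2 := by
  have e0 : c ^ 2 ≤ (D ^ (17 * M)) ^ 2 := pow_le_pow_left₀ hc h3 2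
  have e1 : G ≤ (D ^ (17 * M)) ^ 2 * P ^ 2 := h2.trans (mul_le_mul_of_nonneg_right e0 (sq_nonneg _))
  have e2 : E2 * E3 ≤ D ^ (2 * M) * D ^ (28 * M) := mul_le_mul h4 h5 hE3 (by positivity)
  have e3 : 0 ≤ E2 * E3 := mul_nonneg hE2 hE3
  calc k ≤ G * (E2 * E3) := h1
    _ ≤ ((D ^ (17 * M)) ^ 2 * P ^ 2) * (E2 * E3) := mul_le_mul_of_nonneg_right e1 e3
    _ ≤ ((D ^ (17 * M)) ^ 2 * P ^ 2) * (D ^ (2 * M) * D ^ (28 * M)) :=
        mul_le_mul_of_nonneg_left e2 (by positivity)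
    _ = (D ^ (32 * M) * P) ^ 2 := by
      rw [mul_pow, ← pow_mul, ← pow_add, ← pow_mul]
      rw [show 32 * M * 2 = 17 * M * 2 + (2 * M + 28 * M) by ring, pow_add]
      ring

lemma num_fin {D : ℝ} (hD : 0 < D) (M : ℕ) {P Q : ℝ} (h1 : 1 / D ^ (296 * M) ≤ D ^ (32 * M) * P)
    (h2 : P ≤ D ^ (4 * M) * Q) : 1 / D ^ (332 * M) ≤ Q := by
  have hfin : 1 / D ^ (296 * M) ≤ D ^ (36 * M) * Q := by
    refine h1.trans ?_
    calc D ^ (32 * M) * P ≤ D ^ (32 * M) * (D ^ (4 * M) * Q) :=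
          mul_le_mul_of_nonneg_left h2 (by positivity)
      _ = D ^ (36 * M) * Q := by
        rw [← mul_assoc, ← pow_add]
        congr 2
        ring
  rw [div_le_iff₀ (by positivity)] at hfin ⊢
  refine hfin.trans (le_of_eq ?_)
  rw [show 332 * M = 36 * M + 296 * M by ring, pow_add]
  ring

/-- the components of a family of linear forms -/
noncomputable def cmp {B : Finset (Cf2 N)} (W : X → Y → ℂ) (b : Bool) (c : Y → B → ℂ) (p : B × X) :
    ℂ := ∑ y, W p.2 y * ((pt b (c y p.1) : ℝ) : ℂ)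

set_option maxHeartbeats 1000000 in
open Classical in
/-- **The master theorem**, one sign. -/
theorem master (hN : N.Prime) (h2 : N ≠ 2) {B : Finset (Cf2 N)}
    (hB : IsNewBasis N 2 B) (hg : 1 ≤ B.card) (b : Bool) (δ : ℝ)
    (hδ : δ = 1 ∨ δ = -1) {ε : B → ℝ} (hε : ∀ f : B, W388.IsNewf N 2 f.1 (ε f))
    (hW : Pair X Y W) (c : Y → B → ℂ) (hc : ∀ y, c y ∈ FF B) :
    1 / ((N : ℝ) * Fintype.card Y) ^ (332 * (B.card * Fintype.card Y)) ≤
      ∏ p ∈ (Finset.univ : Finset (B × X)).filter (fun p => ε p.1 = δ ∧ cmp W b c p ≠ 0),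
        ‖cmp W b c p‖ := by
  obtain ⟨Λ, s, hκ, hs, hsb, hspan, hmem⟩ := lat hN h2 hB hg b δ hδ hε
  have hN3 := three_le hN h2
  have hN0 : (0 : ℝ) < N := by linarith
  have hN1 : (1 : ℝ) ≤ N := by linarith
  have hn := hW.n_pos
  have hn1 : (1 : ℝ) ≤ Fintype.card Y := by
    have : 1 ≤ Fintype.card Y := by
      have := Fintype.card_pos_iff.2 ⟨(1 : Y)⟩
      omega
    exact_mod_cast this
  set n : ℕ := Fintype.card Y with hndef
  obtain ⟨v0, hv0, hd0⟩ := exists_full Λ s hs hspan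
  -- the function
  let S : B × X → ℂ := fun p => ∑ y, W p.2 y * ((Rr ε b δ (c y) p.1 : ℝ) : ℂ)
  have hSc : ∀ p, S p = (((((co p.1.1 2).re - 3) * 2 * (1 + δ * ε p.1) : ℝ)) : ℂ) * cmp W b c p := by
    intro p
    show (∑ y, W p.2 y * ((Rr ε b δ (c y) p.1 : ℝ) : ℂ)) = _
    unfold cmp
    rw [Finset.mul_sum]
    refine Finset.sum_congr rfl fun y _ => ?_
    unfold Rr
    push_cast
    ring
  set F : Finset (B × X) := (Finset.univ : Finset (B × X)).filter (fun p => S p ≠ 0) with hF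
  have hco3' : ∀ f : B, (co f.1 2).re - 3 ≠ 0 := by
    intro f h
    refine two red N hN h2 f.1 (ε f) (hε f) ?_
    have h3 : (co f.1 2).re = 3 := by linarith
    rw [show (qExpansion 1 f.1).coeff 2 = co f.1 2 from rfl, co_real (hε f) 2, h3]
    norm_num
  have hFeq : F = (Finset.univ : Finset (B × X)).filter (fun p => ε p.1 = δ ∧ cmp W b c p ≠ 0) := by
    ext p
    simp only [hF, Finset.mem_filter, Finset.mem_univ, true_and]
    rw [hSc p]
    constructor
    · intro h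
      have h3 := right_ne_zero_of_mul h
      refine ⟨?_, h3⟩
      by_contra h4
      apply h
      have : 1 + δ * ε p.1 = 0 := by
        rcases hδ with h5 | h5 <;> rcases (hε p.1).sign with h6 | h6 <;> rw [h5, h6] at h4 ⊢ <;>
          first | (exact absurd rfl h4) | norm_num
      rw [this, mul_zero, Complex.ofReal_zero, zero_mul]
    · rintro ⟨h3, h4⟩
      rw [h3]
      have : 1 + δ * δ = 2 := by
        rcases hδ with h5 | h5 <;> rw [h5] <;> norm_num
      rw [this]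
      refine mul_ne_zero ?_ h4
      have h7 : ((co p.1.1 2).re - 3) * 2 * 2 ≠ 0 :=
        mul_ne_zero (mul_ne_zero (hco3' p.1) two_ne_zero) two_ne_zero
      exact_mod_cast h7
  have hFn : ∀ p ∈ F, W388.IsNewf N 2 p.1.1 δ := by
    intro p hp
    rw [hFeq] at hp
    have h4 := (Finset.mem_filter.1 hp).2.1
    have := hε p.1
    rwa [h4] at this
  obtain ⟨m, hm1, hm2⟩ := exists_detK (F := F)
    (S := {q : ℕ × Y | q.1 ≤ 100 * N ^ 2 ∧ q.1.Coprime N})
    (fun (q : ℕ × Y) (p : F) => ((((co p.1.1.1 q.1).re : ℝ) : ℂ) * W p.1.2 q.2⁻¹))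
    (fun w hw => indepW hN hB hW δ F hFn w hw)
  -- the vectors
  let a : F → B × Y → ℝ := fun i p => (co p.1.1 (m i).1).re * Rr ε b δ (c (p.2 * (m i).2)) p.1
  let C : F → B × X → ℂ := fun i p => (((co p.1.1 (m i).1).re : ℝ) : ℂ) * W p.2 (m i).2⁻¹
  have ha : ∀ i p, ∑ y, W p.2 y * ((a i (p.1, y) : ℝ) : ℂ) = C i p * S p := by
    intro i p
    show ∑ y, W p.2 y * (((co p.1.1 (m i).1).re * Rr ε b δ (c (y * (m i).2)) p.1 : ℝ) : ℂ) =
      (((co p.1.1 (m i).1).re : ℝ) : ℂ) * W p.2 (m i).2⁻¹ *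
        ∑ y, W p.2 y * ((Rr ε b δ (c y) p.1 : ℝ) : ℂ)
    rw [Finset.mul_sum]
    refine Fintype.sum_equiv (Equiv.mulRight (m i).2) _ _ fun y => ?_
    rw [Equiv.coe_mulRight]
    have e1 : W p.2 (m i).2⁻¹ * W p.2 (y * (m i).2) = W p.2 y := by
      rw [← hW.mul]
      congr 1
      rw [mul_comm y, inv_mul_cancel_left]
    rw [← e1]
    push_cast
    ring
  have hS0 : ∀ p, p ∉ F → S p = 0 := by
    intro p hp
    by_contra h
    exact hp (Finset.mem_filter.2 ⟨Finset.mem_univ _, h⟩)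
  have hgram := gram_fourier hW F a C S hS0 ha
  have hCdet : (Matrix.of fun i j : F => C i j).det ≠ 0 := hm2
  have hprodS : 0 < ∏ p ∈ F, ‖S p‖ ^ 2 := by
    refine Finset.prod_pos fun p hp => ?_
    have : S p ≠ 0 := (Finset.mem_filter.1 hp).2
    positivity
  have hCn : 0 < ‖(Matrix.of fun i j : F => C i j).det‖ ^ 2 := by
    have : 0 < ‖(Matrix.of fun i j : F => C i j).det‖ := norm_pos_iff.2 hCdet
    positivity
  have hG0 : (Matrix.of a * (Matrix.of a).transpose).det ≠ 0 := by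
    intro h
    rw [h, mul_zero] at hgram
    exact absurd hgram (ne_of_lt (mul_pos hCn hprodS))
  have hGle : (Matrix.of a * (Matrix.of a).transpose).det ≤
      ‖(Matrix.of fun i j : F => C i j).det‖ ^ 2 * ∏ p ∈ F, ‖S p‖ ^ 2 := by
    rw [← hgram]
    have h3 : 1 ≤ (n : ℝ) ^ (Fintype.card F) := one_le_pow₀ hn1
    have h4 : 0 ≤ (Matrix.of a * (Matrix.of a).transpose).det := by
      have := Matrix.posSemidef_self_mul_conjTranspose (Matrix.of a)
      rw [Matrix.conjTranspose_eq_transpose_of_trivial] at this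
      exact this.det_nonneg
    exact le_mul_of_one_le_left h4 h3
  -- the determinant inequality
  have hcore := core (pw (Y := Y) Λ) ((1 / (N : ℝ) ^ (296 * B.card)) ^ n) (by positivity)
    (fun v hv hd => prod_lattice Λ _ (by positivity) hκ v0 hv0 hd0 v (fun i y => hv i y) hd)
    (fun (i : Fin (N + 2) × Y) (p : B × Y) => if p.2 = i.2 then s i.1 p.1 else 0)
    (fun i y => by
      show (fun b => if y = i.2 then s i.1 b else 0) ∈ Λ
      by_cases h : y = i.2
      · simp only [h, if_true]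
        exact hs i.1
      · simp only [h, if_false]
        exact Λ.zero_mem)
    (8 * (N : ℝ) ^ 4) (by nlinarith [one_le_pow₀ hN1 (n := 4)])
    (fun i p => by
      show ‖(if p.2 = i.2 then s i.1 p.1 else 0 : ℂ)‖ ≤ _
      split_ifs
      · exact hsb _ _
      · rw [norm_zero]; positivity)
    (pw_span s hspan) a
    (fun i y => hmem (c (y * (m i).2)) (hc _) (m i).1 (hm1 i).2) hG0
  -- numerics
  set g : ℕ := B.card with hgdef
  set M : ℕ := g * n with hMdef
  have hcardBY : Fintype.card (B × Y) = M := by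
    rw [Fintype.card_prod, Fintype.card_coe]
  rw [hcardBY] at hcore
  set D : ℝ := (N : ℝ) * n with hD
  have hDN : (N : ℝ) ≤ D := by rw [hD]; nlinarith
  have hD3 : (3 : ℝ) ≤ D := by linarith
  have hD1 : (1 : ℝ) ≤ D := by linarith
  have hD0 : (0 : ℝ) < D := by linarith
  have hcl := card_le hyp hN h2 hB
  have s1 := (dimS hyp hN h2 hB).1
  rw [s1] at hcl
  have hgN : 2 * g ≤ N := by omega
  have h2M : ((2 * M : ℕ) : ℝ) ≤ D := by
    have h3 : 2 * M ≤ N * n := by
      rw [hMdef, ← mul_assoc]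
      exact Nat.mul_le_mul_right n hgN
    rw [hD]
    exact_mod_cast h3
  have hMD : (M : ℝ) ≤ D := by
    have : (M : ℝ) ≤ ((2 * M : ℕ) : ℝ) := by
      push_cast
      have : (0 : ℝ) ≤ M := Nat.cast_nonneg _
      linarith
    linarith
  have hFM : Fintype.card F ≤ M := by
    have h3 : F.card ≤ (Finset.univ : Finset (B × X)).card := Finset.card_le_univ F
    rw [Fintype.card_coe]
    rw [Finset.card_univ, Fintype.card_prod, Fintype.card_coe, hW.card] at h3
    exact h3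
  have hCle : ‖(Matrix.of fun i j : F => C i j).det‖ ≤ D ^ (17 * M) := by
    have h3 : ∀ i j : F, ‖(Matrix.of fun i j : F => C i j) i j‖ ≤ 10 ^ 4 * (N : ℝ) ^ 4 := by
      intro i j
      show ‖(((co j.1.1.1 (m i).1).re : ℝ) : ℂ) * W j.1.2 (m i).2⁻¹‖ ≤ _
      rw [norm_mul, hW.norm, mul_one, Complex.norm_real, Real.norm_eq_abs]
      refine (Complex.abs_re_le_norm _).trans
        ((coef N hN j.1.1.1 (ε j.1.1) (hε j.1.1) (m i).1).trans ?_)
      have e1 : (((m i).1 : ℕ) : ℝ) ≤ 100 * (N : ℝ) ^ 2 := by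
        have := (hm1 i).1
        exact_mod_cast this
      calc (((m i).1 : ℕ) : ℝ) ^ 2 ≤ (100 * (N : ℝ) ^ 2) ^ 2 := by gcongr
        _ = _ := by ring
    have h4 := Matrix.det_le (A := (Matrix.of fun i j : F => C i j))
      (abv := (IsAbsoluteValue.toAbsoluteValue (norm : ℂ → ℝ))) (x := 10 ^ 4 * (N : ℝ) ^ 4) h3
    rw [nsmul_eq_mul] at h4
    refine (show ‖(Matrix.of fun i j : F => C i j).det‖ ≤ _ from h4).trans ?_
    have h5 : ((Fintype.card F).factorial : ℝ) ≤ D ^ M := by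
      have h6 : (Fintype.card F).factorial ≤ M ^ M :=
        (Nat.factorial_le hFM).trans (Nat.factorial_le_pow _)
      calc ((Fintype.card F).factorial : ℝ) ≤ (M : ℝ) ^ M := by exact_mod_cast h6
        _ ≤ D ^ M := pow_le_pow_left₀ (Nat.cast_nonneg _) hMD _
    have h7 : (10 ^ 4 * (N : ℝ) ^ 4) ≤ D ^ 16 := by
      have h8 : (10 : ℝ) ^ 4 ≤ D ^ 12 := by
        calc (10 : ℝ) ^ 4 ≤ 3 ^ 12 := by norm_num
          _ ≤ D ^ 12 := by gcongr
      calc (10 ^ 4 * (N : ℝ) ^ 4) ≤ D ^ 12 * D ^ 4 := by gcongr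
        _ = D ^ 16 := by ring
    have h9 : (10 ^ 4 * (N : ℝ) ^ 4) ^ Fintype.card F ≤ D ^ (16 * M) := by
      calc (10 ^ 4 * (N : ℝ) ^ 4) ^ Fintype.card F ≤ (D ^ 16) ^ Fintype.card F := by gcongr
        _ ≤ (D ^ 16) ^ M := pow_le_pow_right₀ (one_le_pow₀ hD1) hFM
        _ = D ^ (16 * M) := by rw [← pow_mul]
    calc ((Fintype.card F).factorial : ℝ) * (10 ^ 4 * (N : ℝ) ^ 4) ^ Fintype.card F ≤
        D ^ M * D ^ (16 * M) := mul_le_mul h5 h9 (by positivity) (by positivity)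
      _ = D ^ (17 * M) := by rw [← pow_add]; congr 1; ring
  have hP0 : 0 ≤ ∏ p ∈ F, ‖S p‖ := Finset.prod_nonneg fun p _ => norm_nonneg _
  have hstep : (1 / D ^ (296 * M)) ^ 2 ≤ (D ^ (32 * M) * ∏ p ∈ F, ‖S p‖) ^ 2 := by
    have e1 : (1 / D ^ (296 * M)) ^ 2 ≤ ((1 / (N : ℝ) ^ (296 * g)) ^ n) ^ 2 := by
      refine pow_le_pow_left₀ (by positivity) ?_ 2
      rw [one_div_pow, ← pow_mul, show 296 * g * n = 296 * M by rw [hMdef]; ring]
      exact one_div_le_one_div_of_le (by positivity) (pow_le_pow_left₀ hN0.le hDN _)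
    refine e1.trans (hcore.trans ?_)
    have hGle' : (Matrix.of a * (Matrix.of a).transpose).det ≤
        ‖(Matrix.of fun i j : F => C i j).det‖ ^ 2 * (∏ p ∈ F, ‖S p‖) ^ 2 := by
      rw [← Finset.prod_pow]
      exact hGle
    have e2 : ((2 * M : ℕ) : ℝ) ^ (2 * M) ≤ D ^ (2 * M) := pow_le_pow_left₀ (Nat.cast_nonneg _) h2M _
    have e3 : (((2 * M + 1 : ℕ) : ℝ) * (8 * (N : ℝ) ^ 4) ^ 2) ^ (2 * M) ≤ D ^ (28 * M) := by
      have e4 : ((2 * M + 1 : ℕ) : ℝ) ≤ D ^ 2 := by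
        push_cast
        push_cast at h2M
        nlinarith
      have e5 : (64 : ℝ) ≤ D ^ 4 := by
        calc (64 : ℝ) ≤ 3 ^ 4 := by norm_num
          _ ≤ D ^ 4 := by gcongr
      calc (((2 * M + 1 : ℕ) : ℝ) * (8 * (N : ℝ) ^ 4) ^ 2) ^ (2 * M) =
          (((2 * M + 1 : ℕ) : ℝ) * (64 * (N : ℝ) ^ 8)) ^ (2 * M) := by congr 2; ring
        _ ≤ (D ^ 2 * (D ^ 4 * D ^ 8)) ^ (2 * M) := by gcongr
        _ = D ^ (28 * M) := by
          rw [← pow_add, ← pow_add, ← pow_mul]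
          congr 1
          ring
    refine num_step hD0.le M (pow_nonneg (Nat.cast_nonneg _) _) ?_ (norm_nonneg _) le_rfl hGle' hCle e2 e3
    exact pow_nonneg (mul_nonneg (Nat.cast_nonneg _) (sq_nonneg _)) _
  have hstep2 : 1 / D ^ (296 * M) ≤ D ^ (32 * M) * ∏ p ∈ F, ‖S p‖ :=
    (pow_le_pow_iff_left₀ (by positivity) (by positivity) two_ne_zero).1 hstep
  -- from `S` to the components
  have hSle : ∏ p ∈ F, ‖S p‖ ≤ D ^ (4 * M) * ∏ p ∈ F, ‖cmp W b c p‖ := by
    have h3 : ∀ p ∈ F, ‖S p‖ ≤ D ^ 4 * ‖cmp W b c p‖ := by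
      intro p hp
      rw [hFeq] at hp
      have h4 := (Finset.mem_filter.1 hp).2.1
      have e2 := hyp.qu N hN h2 p.1.1 (ε p.1) (hε p.1)
      have e3 : |(co p.1.1 2).re - 3| ≤ 6 := by
        have e4 := Complex.abs_re_le_norm (co p.1.1 2)
        have e6 : 0 < 1 / (100 * (N : ℝ)) ^ 4 := by positivity
        rw [abs_le] at e4 ⊢
        constructor <;> linarith
      rw [hSc p, norm_mul, Complex.norm_real, Real.norm_eq_abs, h4]
      have : 1 + δ * δ = 2 := by
        rcases hδ with h5 | h5 <;> rw [h5] <;> norm_num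
      rw [this, abs_mul, abs_mul, abs_two]
      have h81 : (24 : ℝ) ≤ D ^ 4 := by
        calc (24 : ℝ) ≤ 3 ^ 4 := by norm_num
          _ ≤ D ^ 4 := by gcongr
      refine mul_le_mul_of_nonneg_right ?_ (norm_nonneg _)
      linarith
    refine (Finset.prod_le_prod (fun p _ => norm_nonneg _) h3).trans ?_
    rw [Finset.prod_mul_distrib, Finset.prod_const, ← pow_mul]
    refine mul_le_mul_of_nonneg_right ?_ (Finset.prod_nonneg fun p _ => norm_nonneg _)
    refine pow_le_pow_right₀ hD1 ?_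
    rw [Fintype.card_coe] at hFM
    omega
  rw [← hFeq]
  exact num_fin hD0 M hstep2 hSle

end Pool.Agent.J4.H50.CV
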