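import Pool.Agent.J4.H50.CV.L3

/-!
# The perfect pairing of a group of Dirichlet characters
-/

set_option autoImplicit false

namespace Pool.Agent.J4.H50.CV

/-- the common kernel of the characters of `X` -/
def ann {q : ℕ} (X : Subgroup (DirichletCharacter ℂ q)) : Subgroup (ZMod q)ˣ where
  carrier := {u | ∀ χ ∈ X, χ (u : ZMod q) = 1}
  one_mem' := fun χ _ => by simp
  mul_mem' := fun {u v} hu hv χ hχ => by
    rw [Units.val_mul, map_mul, hu χ hχ, hv χ hχ, one_mul]
  inv_mem' := fun {u} hu χ hχ => by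
    have h1 : χ ((u⁻¹ : (ZMod q)ˣ) : ZMod q) * χ (u : ZMod q) = 1 := by
      rw [← map_mul, ← Units.val_mul, inv_mul_cancel, Units.val_one, map_one]
    rw [hu χ hχ, mul_one] at h1
    exact h1

/-- the character on the quotient -/
noncomputable def qc {q : ℕ} (X : Subgroup (DirichletCharacter ℂ q)) (χ : X) :
    (ZMod q)ˣ ⧸ ann X →* ℂˣ :=
  QuotientGroup.lift (ann X) χ.1.toUnitHom fun u hu => by
    apply Units.ext
    rw [MulChar.coe_toUnitHom, Units.val_one]
    exact hu χ.1 χ.2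

/-- the pairing -/
noncomputable def WW {q : ℕ} (X : Subgroup (DirichletCharacter ℂ q)) (χ : X)
    (y : (ZMod q)ˣ ⧸ ann X) : ℂ := ((qc X χ y : ℂˣ) : ℂ)

lemma WW_mk {q : ℕ} (X : Subgroup (DirichletCharacter ℂ q)) (χ : X) (u : (ZMod q)ˣ) :
    WW X χ (QuotientGroup.mk u) = χ.1 (u : ZMod q) := by
  show ((χ.1.toUnitHom u : ℂˣ) : ℂ) = _
  rw [MulChar.coe_toUnitHom]

lemma WW_mul {q : ℕ} (X : Subgroup (DirichletCharacter ℂ q)) (χ : X)
    (y y' : (ZMod q)ˣ ⧸ ann X) : WW X χ (y * y') = WW X χ y * WW X χ y' := by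
  unfold WW
  rw [map_mul, Units.val_mul]

lemma WW_norm {q : ℕ} (X : Subgroup (DirichletCharacter ℂ q)) (χ : X)
    (y : (ZMod q)ˣ ⧸ ann X) : ‖WW X χ y‖ = 1 := by
  obtain ⟨u, rfl⟩ := QuotientGroup.mk_surjective y
  rw [WW_mk]
  exact χ.1.unit_norm_eq_one u

lemma WW_inj {q : ℕ} (X : Subgroup (DirichletCharacter ℂ q)) (χ χ' : X)
    (h : ∀ y, WW X χ y = WW X χ' y) : χ = χ' := by
  apply Subtype.ext
  ext u
  have := h (QuotientGroup.mk u)
  rwa [WW_mk, WW_mk] at this

lemma WW_sep {q : ℕ} (X : Subgroup (DirichletCharacter ℂ q)) (y y' : (ZMod q)ˣ ⧸ ann X)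
    (h : ∀ χ, WW X χ y = WW X χ y') : y = y' := by
  obtain ⟨u, rfl⟩ := QuotientGroup.mk_surjective y
  obtain ⟨v, rfl⟩ := QuotientGroup.mk_surjective y'
  rw [QuotientGroup.eq]
  intro χ hχ
  have h1 := h ⟨χ, hχ⟩
  rw [WW_mk, WW_mk] at h1
  rw [Units.val_mul, map_mul, ← h1, ← map_mul, ← Units.val_mul, inv_mul_cancel, Units.val_one,
    map_one]

lemma WW_char_mul {q : ℕ} (X : Subgroup (DirichletCharacter ℂ q)) (χ χ' : X)
    (y : (ZMod q)ˣ ⧸ ann X) : WW X (χ * χ') y = WW X χ y * WW X χ' y := by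
  obtain ⟨u, rfl⟩ := QuotientGroup.mk_surjective y
  rw [WW_mk, WW_mk, WW_mk, Subgroup.coe_mul, MulChar.mul_apply]

lemma WW_char_one {q : ℕ} (X : Subgroup (DirichletCharacter ℂ q))
    (y : (ZMod q)ˣ ⧸ ann X) : WW X 1 y = 1 := by
  obtain ⟨u, rfl⟩ := QuotientGroup.mk_surjective y
  rw [WW_mk, Subgroup.coe_one, MulChar.one_apply_coe]

theorem WW_pair {q : ℕ} (X : Subgroup (DirichletCharacter ℂ q)) [Fintype X]
    [DecidableEq X] [Fintype ((ZMod q)ˣ ⧸ ann X)] : Pair X ((ZMod q)ˣ ⧸ ann X) (WW X) := by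
  classical
  have horth : ∀ χ χ' : X, ∑ y, WW X χ y * starRingEnd ℂ (WW X χ' y) =
      if χ = χ' then (Fintype.card ((ZMod q)ˣ ⧸ ann X) : ℂ) else 0 := by
    intro χ χ'
    have hconj : ∀ y, starRingEnd ℂ (WW X χ' y) = ((((qc X χ' y)⁻¹ : ℂˣ)) : ℂ) := by
      intro y
      rw [Units.val_inv_eq_inv_val]
      have h1 := WW_norm X χ' y
      exact (Complex.inv_eq_conj h1).symm
    by_cases h : χ = χ'
    · subst h
      rw [if_pos rfl]
      have : ∀ y, WW X χ y * starRingEnd ℂ (WW X χ y) = 1 := by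
        intro y
        rw [Complex.mul_conj, Complex.normSq_eq_norm_sq, WW_norm]
        simp
      rw [Finset.sum_congr rfl fun y _ => this y]
      simp
    · rw [if_neg h]
      let φ : (ZMod q)ˣ ⧸ ann X →* ℂ :=
        (Units.coeHom ℂ).comp (qc X χ * (qc X χ')⁻¹)
      have h1 : ∀ y, WW X χ y * starRingEnd ℂ (WW X χ' y) = φ y := by
        intro y
        rw [hconj]
        rfl
      rw [Finset.sum_congr rfl fun y _ => h1 y]
      refine sum_hom_units_eq_zero φ fun h2 => h (WW_inj X χ χ' fun y => ?_)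
      have h3 : φ y = 1 := by rw [h2]; rfl
      rw [← h1, hconj] at h3
      have h4 : WW X χ y * ((((qc X χ' y)⁻¹ : ℂˣ)) : ℂ) * ((qc X χ' y : ℂˣ) : ℂ) =
          ((qc X χ' y : ℂˣ) : ℂ) := by rw [h3, one_mul]
      rw [mul_assoc, Units.inv_mul, mul_one] at h4
      exact h4
  refine ⟨WW_mul X, WW_norm X, horth, ?_⟩
  -- the cardinalities
  apply le_antisymm
  · -- the rows are independent
    have hli : LinearIndependent ℂ (fun χ : X => (WW X χ : (ZMod q)ˣ ⧸ ann X → ℂ)) := by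
      rw [Fintype.linearIndependent_iff]
      intro g hg χ0
      have h1 : ∑ y, (∑ χ, g χ * WW X χ y) * starRingEnd ℂ (WW X χ0 y) = 0 := by
        refine Finset.sum_eq_zero fun y _ => ?_
        have h2 := congrFun hg y
        rw [Finset.sum_apply] at h2
        simp only [Pi.smul_apply, smul_eq_mul, Pi.zero_apply] at h2
        rw [h2, zero_mul]
      simp only [Finset.sum_mul] at h1
      rw [Finset.sum_comm] at h1
      have h3 : ∀ χ, ∑ y, g χ * WW X χ y * starRingEnd ℂ (WW X χ0 y) =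
          if χ = χ0 then g χ * (Fintype.card ((ZMod q)ˣ ⧸ ann X) : ℂ) else 0 := by
        intro χ
        have : ∀ y, g χ * WW X χ y * starRingEnd ℂ (WW X χ0 y) =
          g χ * (WW X χ y * starRingEnd ℂ (WW X χ0 y)) := fun y => by ring
        rw [Finset.sum_congr rfl fun y _ => this y, ← Finset.mul_sum, horth]
        split_ifs
        · rfl
        · rw [mul_zero]
      simp only [h3] at h1
      rw [Finset.sum_ite_eq' Finset.univ χ0] at h1
      simp only [Finset.mem_univ, if_true] at h1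
      refine (mul_eq_zero.1 h1).resolve_right ?_
      have : 0 < Fintype.card ((ZMod q)ˣ ⧸ ann X) := Fintype.card_pos_iff.2 ⟨1⟩
      exact_mod_cast this.ne'
    have h1 := hli.fintype_card_le_finrank
    rwa [Module.finrank_fintype_fun_eq_card] at h1
  · -- the columns are distinct characters
    let ψ : ((ZMod q)ˣ ⧸ ann X) → (X →* ℂ) := fun y =>
      { toFun := fun χ => WW X χ y
        map_one' := WW_char_one X y
        map_mul' := fun χ χ' => WW_char_mul X χ χ' y }
    have hinj : Function.Injective ψ := by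
      intro y y' h
      refine WW_sep X y y' fun χ => ?_
      exact congrArg (fun φ : X →* ℂ => φ χ) h
    have hli := (linearIndependent_monoidHom X ℂ).comp ψ hinj
    have h1 := hli.fintype_card_le_finrank
    rwa [Module.finrank_fintype_fun_eq_card] at h1

end Pool.Agent.J4.H50.CV
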