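import Pool.Agent.J4.H50.CV.M2
import Pool.Agent.J4.H50.CV.M3
import Pool.Agent.J4.H50.CV.A4

/-!
# The product of the nonzero character sums of boundary values
-/

set_option autoImplicit false

open Complex Filter Topology Set UpperHalfPlane MatrixGroups CongruenceSubgroup

namespace Pool.Agent.J4.H50.CV

open Pool.Agent.TH940 (prim prim_deriv Fr prim_fricke Pers prim_near prim_line exp_norm)
open Pool.Agent.Y18.BSD
open Pool.Agent.K4H13.CV
open W388.LV (SF bf pet IsNewBasis)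

variable {N : ℕ} [NeZero N]

/-- the character sum of the boundary values -/
noncomputable def Vc (f : Cf2 N) {q : ℕ} [NeZero q] (χ : DirichletCharacter ℂ q) : ℂ :=
  ∑ u : (ZMod q)ˣ, χ (u : ZMod q) * bv f (((u : ZMod q).val : ℚ) / q)

lemma sgn_val' {q : ℕ} (χ : DirichletCharacter ℂ q) : χ (-1) = 1 ∨ χ (-1) = -1 := by
  have h : χ (-1) * χ (-1) = 1 := by
    rw [← map_mul]
    simp
  exact mul_self_eq_one_iff.1 h

lemma par_eq' {q : ℕ} (χ : DirichletCharacter ℂ q) : χ (-1) = if par χ then 1 else -1 := by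
  unfold par
  rcases sgn_val' χ with h | h
  · rw [h]; simp
  · rw [h]
    have : ¬ ((-1 : ℂ) = 1) := by norm_num
    simp [this]

lemma Vc_conj {f : Cf2 N} {ε : ℝ} (hf : W388.IsNewf N 2 f ε) {q : ℕ} [NeZero q]
    (χ : DirichletCharacter ℂ q) (hco : Nat.Coprime q N) :
    ∑ u : (ZMod q)ˣ, χ (u : ZMod q) * starRingEnd ℂ (bv f (((u : ZMod q).val : ℚ) / q)) =
      χ (-1) * Vc f χ := by
  unfold Vc
  rw [Finset.mul_sum]
  refine Fintype.sum_equiv (Equiv.neg _) _ _ fun u => ?_
  have e1 := bv_neg_u f (-u)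
  rw [neg_neg] at e1
  rw [Equiv.neg_apply, ← bv_neg (newf_fr hf) hf.real _ (den_u hco u), e1, ← mul_assoc, ← map_mul]
  congr 2
  push_cast
  ring

lemma Vc_bd {f : Cf2 N} {ε : ℝ} (hf : W388.IsNewf N 2 f ε) (hN : N.Prime) {q : ℕ} [NeZero q]
    (χ : DirichletCharacter ℂ q) (hco : Nat.Coprime q N) :
    ‖Vc f χ‖ ≤ 8 * (N : ℝ) ^ 2 * (q : ℝ) ^ 3 := by
  unfold Vc
  have h1 : ∀ u : (ZMod q)ˣ, ‖χ (u : ZMod q) * bv f (((u : ZMod q).val : ℚ) / q)‖ ≤
      8 * (N : ℝ) ^ 2 * (q : ℝ) ^ 2 := by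
    intro u
    rw [norm_mul, χ.unit_norm_eq_one, one_mul]
    obtain ⟨r', -, -, h⟩ := bv_star (N := N) (((u : ZMod q).val : ℚ) / q) (den_u hco u)
    have h1 := (h f ε (newf_fr hf)).2 (coef N hN f ε hf) (by
      rcases hf.sign with h1 | h1 <;> rw [h1] <;> norm_num)
    refine h1.trans ?_
    have : ((((u : ZMod q).val : ℚ) / q).den : ℝ) ≤ q := by exact_mod_cast den_u_le u
    gcongr
  calc ‖∑ u : (ZMod q)ˣ, χ (u : ZMod q) * bv f (((u : ZMod q).val : ℚ) / q)‖ ≤
      ∑ u : (ZMod q)ˣ, ‖χ (u : ZMod q) * bv f (((u : ZMod q).val : ℚ) / q)‖ := norm_sum_le _ _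
    _ ≤ ∑ _u : (ZMod q)ˣ, 8 * (N : ℝ) ^ 2 * (q : ℝ) ^ 2 := Finset.sum_le_sum fun u _ => h1 u
    _ = (Fintype.card (ZMod q)ˣ : ℝ) * (8 * (N : ℝ) ^ 2 * (q : ℝ) ^ 2) := by simp
    _ ≤ (q : ℝ) * (8 * (N : ℝ) ^ 2 * (q : ℝ) ^ 2) := by
        refine mul_le_mul_of_nonneg_right ?_ (by positivity)
        rw [ZMod.card_units_eq_totient]
        exact_mod_cast Nat.totient_le q
    _ = _ := by ring

open Classical in
/-- the linear form of a coset -/
noncomputable def cf (B : Finset (Cf2 N)) {q : ℕ} [NeZero q] (X : Subgroup (DirichletCharacter ℂ q))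
    (y : (ZMod q)ˣ ⧸ ann X) (f : B) : ℂ :=
  ∑ u ∈ (Finset.univ : Finset (ZMod q)ˣ).filter (fun u => (QuotientGroup.mk u : (ZMod q)ˣ ⧸ ann X) = y),
    bv f.1 (((u : ZMod q).val : ℚ) / q)

lemma cf_mem (B : Finset (Cf2 N)) {q : ℕ} [NeZero q] (X : Subgroup (DirichletCharacter ℂ q))
    (hco : Nat.Coprime q N) (y : (ZMod q)ˣ ⧸ ann X) : cf B X y ∈ FF B := by
  classical
  have h1 := (FF B).sum_mem (t := (Finset.univ : Finset (ZMod q)ˣ).filter
    (fun u => (QuotientGroup.mk u : (ZMod q)ˣ ⧸ ann X) = y))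
    (f := fun u => (fun f : B => bv f.1 (((u : ZMod q).val : ℚ) / q)))
    (fun u _ => FF_bv B _ (den_u hco u))
  refine (congrArg (· ∈ FF B) ?_).mp h1
  funext f
  rw [Finset.sum_apply]
  rfl

/-- the components are the character sums -/
lemma cmp_cf {B : Finset (Cf2 N)} (hB : ∀ f ∈ B, ∃ ε : ℝ, W388.IsNewf N 2 f ε) {q : ℕ} [NeZero q]
    (X : Subgroup (DirichletCharacter ℂ q)) [Fintype X] [DecidableEq X]
    [Fintype ((ZMod q)ˣ ⧸ ann X)] (hco : Nat.Coprime q N) (b : Bool) (p : B × X) :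
    ii b * cmp (WW X) b (cf B X) p = if par p.2.1 = b then Vc p.1.1 p.2.1 else 0 := by
  classical
  obtain ⟨ε, hε⟩ := hB p.1.1 p.1.2
  have h1 : cmp (WW X) b (cf B X) p = ∑ u : (ZMod q)ˣ, p.2.1 (u : ZMod q) *
      ((pt b (bv p.1.1 (((u : ZMod q).val : ℚ) / q)) : ℝ) : ℂ) := by
    unfold cmp cf
    rw [← Finset.sum_fiberwise Finset.univ (fun u : (ZMod q)ˣ =>
      (QuotientGroup.mk u : (ZMod q)ˣ ⧸ ann X))]
    refine Finset.sum_congr rfl fun y _ => ?_
    rw [pt_sum]
    push_cast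
    rw [Finset.mul_sum]
    refine Finset.sum_congr rfl fun u hu => ?_
    rw [← (Finset.mem_filter.1 hu).2, WW_mk]
  have h2 : 2 * (ii b * cmp (WW X) b (cf B X) p) =
      Vc p.1.1 p.2.1 + (if b then (1 : ℂ) else -1) * (p.2.1 (-1) * Vc p.1.1 p.2.1) := by
    rw [← Vc_conj hε p.2.1 hco, h1]
    unfold Vc
    rw [Finset.mul_sum, Finset.mul_sum, Finset.mul_sum, ← Finset.sum_add_distrib]
    refine Finset.sum_congr rfl fun u _ => ?_
    have h3 := pt_eq b (bv p.1.1 (((u : ZMod q).val : ℚ) / q))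
    unfold ii
    push_cast at h3
    linear_combination (p.2.1 (u : ZMod q)) * h3
  rw [par_eq' p.2.1] at h2
  have h4 : (2 : ℂ) ≠ 0 := two_ne_zero
  apply mul_left_cancel₀ h4
  rw [h2]
  cases b <;> cases par p.2.1 <;> simp <;> ring

lemma ii_norm' (b : Bool) : ‖ii b‖ = 1 := by
  unfold ii
  cases b <;> simp

open Classical in
/-- **The product of the nonzero character sums.** -/
theorem prodV (hN : N.Prime) (h2 : N ≠ 2) {B : Finset (Cf2 N)}
    (hB : IsNewBasis N 2 B) {q : ℕ} [NeZero q] (hco : Nat.Coprime q N)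
    (X : Subgroup (DirichletCharacter ℂ q)) [Fintype X] [DecidableEq X] :
    1 / ((N : ℝ) * q) ^ (1328 * (B.card * Fintype.card X)) ≤
      ∏ p ∈ (Finset.univ : Finset (B × X)).filter (fun p => Vc p.1.1 p.2.1 ≠ 0),
        ‖Vc p.1.1 p.2.1‖ := by
  have hN3 := three_le hN h2
  have hN0 : (0 : ℝ) < N := by linarith
  have hq1 : (1 : ℝ) ≤ q := by exact_mod_cast Nat.pos_of_ne_zero (NeZero.ne q)
  rcases Nat.eq_zero_or_pos B.card with h0 | hg
  · have he : IsEmpty B := by
      rw [Finset.card_eq_zero] at h0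
      rw [h0]
      infer_instance
    have he2 : IsEmpty (B × X) := ⟨fun p => he.false p.1⟩
    rw [Finset.univ_eq_empty, Finset.filter_empty, Finset.prod_empty, h0]
    norm_num
  choose ε' hε' using hB.newf
  set ε : B → ℝ := fun f => ε' f.1 f.2 with hε0
  have hε : ∀ f : B, W388.IsNewf N 2 f.1 (ε f) := fun f => hε' f.1 f.2
  have : Fintype ((ZMod q)ˣ ⧸ ann X) := Fintype.ofFinite _
  have hW := WW_pair X
  have hcardY : Fintype.card ((ZMod q)ˣ ⧸ ann X) = Fintype.card X := hW.card.symm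
  -- both signs
  have hb : ∀ b : Bool, 1 / ((N : ℝ) * Fintype.card X) ^ (664 * (B.card * Fintype.card X)) ≤
      ∏ p ∈ (Finset.univ : Finset (B × X)).filter (fun p => cmp (WW X) b (cf B X) p ≠ 0),
        ‖cmp (WW X) b (cf B X) p‖ := by
    intro b
    have h1 := master hN h2 hB hg b 1 (Or.inl rfl) hε hW (cf B X) (fun y => cf_mem B X hco y)
    have h3 := master hN h2 hB hg b (-1) (Or.inr rfl) hε hW (cf B X) (fun y => cf_mem B X hco y)
    rw [hcardY] at h1 h3
    have hsplit : (Finset.univ : Finset (B × X)).filter (fun p => cmp (WW X) b (cf B X) p ≠ 0) =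
        (Finset.univ : Finset (B × X)).filter
          (fun p => ε p.1 = 1 ∧ cmp (WW X) b (cf B X) p ≠ 0) ∪
        (Finset.univ : Finset (B × X)).filter
          (fun p => ε p.1 = -1 ∧ cmp (WW X) b (cf B X) p ≠ 0) := by
      ext p
      simp only [Finset.mem_filter, Finset.mem_univ, true_and, Finset.mem_union]
      constructor
      · intro h
        rcases (hε p.1).sign with h5 | h5
        · exact Or.inl ⟨h5, h⟩
        · exact Or.inr ⟨h5, h⟩
      · rintro (h | h) <;> exact h.2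
    have hdis : Disjoint ((Finset.univ : Finset (B × X)).filter
          (fun p => ε p.1 = 1 ∧ cmp (WW X) b (cf B X) p ≠ 0))
        ((Finset.univ : Finset (B × X)).filter
          (fun p => ε p.1 = -1 ∧ cmp (WW X) b (cf B X) p ≠ 0)) := by
      rw [Finset.disjoint_left]
      intro p h5 h6
      have h7 := (Finset.mem_filter.1 h5).2.1
      have h8 := (Finset.mem_filter.1 h6).2.1
      rw [h7] at h8
      norm_num at h8
    rw [hsplit, Finset.prod_union hdis]
    have h4 : 1 / ((N : ℝ) * Fintype.card X) ^ (664 * (B.card * Fintype.card X)) =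
        1 / ((N : ℝ) * Fintype.card X) ^ (332 * (B.card * Fintype.card X)) *
        (1 / ((N : ℝ) * Fintype.card X) ^ (332 * (B.card * Fintype.card X))) := by
      rw [one_div_mul_one_div, ← pow_add]
      congr 2
      ring
    rw [h4]
    exact mul_le_mul h1 h3 (by positivity) (Finset.prod_nonneg fun f _ => norm_nonneg _)
  -- both parities
  have hcmp : ∀ (b : Bool) (p : B × X), ‖cmp (WW X) b (cf B X) p‖ =
      if par p.2.1 = b then ‖Vc p.1.1 p.2.1‖ else 0 := by
    intro b p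
    have h1 := congrArg norm (cmp_cf (fun f hf => hB.newf f hf) X hco b p)
    rw [norm_mul, ii_norm', one_mul] at h1
    rw [h1]
    split_ifs
    · rfl
    · exact norm_zero
  have hsplit : (Finset.univ : Finset (B × X)).filter (fun p => Vc p.1.1 p.2.1 ≠ 0) =
      (Finset.univ : Finset (B × X)).filter (fun p => cmp (WW X) true (cf B X) p ≠ 0) ∪
      (Finset.univ : Finset (B × X)).filter (fun p => cmp (WW X) false (cf B X) p ≠ 0) := by
    ext p
    simp only [Finset.mem_filter, Finset.mem_univ, true_and, Finset.mem_union]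
    rw [← norm_ne_zero_iff (a := Vc p.1.1 p.2.1),
      ← norm_ne_zero_iff (a := cmp (WW X) true (cf B X) p),
      ← norm_ne_zero_iff (a := cmp (WW X) false (cf B X) p), hcmp, hcmp]
    cases par p.2.1 <;> simp
  have hdis : Disjoint
      ((Finset.univ : Finset (B × X)).filter (fun p => cmp (WW X) true (cf B X) p ≠ 0))
      ((Finset.univ : Finset (B × X)).filter (fun p => cmp (WW X) false (cf B X) p ≠ 0)) := by
    rw [Finset.disjoint_left]
    intro p h5 h6
    have h7 := (Finset.mem_filter.1 h5).2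
    have h8 := (Finset.mem_filter.1 h6).2
    rw [← norm_ne_zero_iff, hcmp] at h7 h8
    cases h9 : par p.2.1 <;> rw [h9] at h7 h8 <;> simp at h7 h8
  have hprod : ∀ b : Bool, ∏ p ∈ (Finset.univ : Finset (B × X)).filter
      (fun p => cmp (WW X) b (cf B X) p ≠ 0), ‖Vc p.1.1 p.2.1‖ =
      ∏ p ∈ (Finset.univ : Finset (B × X)).filter
      (fun p => cmp (WW X) b (cf B X) p ≠ 0), ‖cmp (WW X) b (cf B X) p‖ := by
    intro b
    refine Finset.prod_congr rfl fun p hp => ?_
    have h7 := (Finset.mem_filter.1 hp).2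
    rw [← norm_ne_zero_iff, hcmp] at h7
    rw [hcmp]
    by_cases h : par p.2.1 = b
    · rw [if_pos h]
    · rw [if_neg h] at h7
      exact absurd rfl h7
  rw [hsplit, Finset.prod_union hdis, hprod, hprod]
  have hX1 : (1 : ℝ) ≤ Fintype.card X := by
    have : 1 ≤ Fintype.card X := by
      have := Fintype.card_pos_iff.2 ⟨(1 : X)⟩
      omega
    exact_mod_cast this
  have hXq : (Fintype.card X : ℝ) ≤ q := by
    rw [← hcardY]
    have h1 : Fintype.card ((ZMod q)ˣ ⧸ ann X) ≤ Fintype.card (ZMod q)ˣ :=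
      Fintype.card_le_of_surjective _ QuotientGroup.mk_surjective
    rw [ZMod.card_units_eq_totient] at h1
    exact_mod_cast h1.trans (Nat.totient_le q)
  have h4 : 1 / ((N : ℝ) * q) ^ (1328 * (B.card * Fintype.card X)) ≤
      1 / ((N : ℝ) * Fintype.card X) ^ (664 * (B.card * Fintype.card X)) *
      (1 / ((N : ℝ) * Fintype.card X) ^ (664 * (B.card * Fintype.card X))) := by
    rw [one_div_mul_one_div, ← pow_add]
    rw [show 664 * (B.card * Fintype.card X) + 664 * (B.card * Fintype.card X) =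
      1328 * (B.card * Fintype.card X) by ring]
    refine one_div_le_one_div_of_le (by positivity) ?_
    gcongr
  exact h4.trans (mul_le_mul (hb true) (hb false) (by positivity)
    (Finset.prod_nonneg fun f _ => norm_nonneg _))

end Pool.Agent.J4.H50.CV
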